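import Pool.Agent.X136.PT.Prob

open MeasureTheory ProbabilityTheory Set
open scoped ENNReal NNReal Classical Pointwise

namespace Pool.Agent.X136.PT

theorem split_ge {E : Type*} (rho : E → ℝ≥0) (e : E) (T : Set E) (he : e ∉ T)
    {G G1 G0 : Set (E → ℕ)}
    (hG1 : MeasurableSet[sg T] G1) (hG0 : MeasurableSet[sg T] G0)
    (h1 : ∀ om : E → ℕ, om e ≠ 0 → om ∈ G1 → om ∈ G)
    (h0 : ∀ om : E → ℕ, om e = 0 → om ∈ G0 → om ∈ G) :
    (1 - Real.exp (-(rho e : ℝ))) * (P rho).real G1 + Real.exp (-(rho e : ℝ)) * (P rho).real G0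
      ≤ (P rho).real G := by
  have hd : Disjoint ({e} : Set E) T := Set.disjoint_singleton_left.2 he
  rw [← prob_open rho e, ← prob_zero rho e, ← indepR rho hd (meas_open rfl) hG1,
    ← indepR rho hd (meas_zero rfl) hG0]
  have hdis : Disjoint ({om : E → ℕ | om e ≠ 0} ∩ G1) ({om : E → ℕ | om e = 0} ∩ G0) := by
    rw [Set.disjoint_left]
    rintro om ⟨h2, _⟩ ⟨h3, _⟩
    exact h2 h3
  have hm : MeasurableSet ({om : E → ℕ | om e = 0} ∩ G0) :=
    (sg_le {e} _ (meas_zero rfl)).inter (sg_le T _ hG0)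
  rw [← measureReal_union hdis hm]
  refine measureReal_mono ?_ (measure_ne_top _ _)
  rintro om (⟨h2, h3⟩ | ⟨h2, h3⟩)
  · exact h1 om h2 h3
  · exact h0 om h2 h3

variable {Γ : Type*} [Countable Γ]

theorem reveal (rho : Sym2 Γ → ℝ≥0) (v : Γ) (R' : Set Γ) (hv : v ∉ R') (j : ℕ) (q r : ℝ)
    (hq0 : 0 ≤ q) (hq1 : q ≤ 1) (hr0 : 0 ≤ r) (hr1 : r ≤ 1) (Y : Finset Γ) :
    ∀ (L' : Finset Γ), Disjoint L' Y →
      (∀ y ∈ Y, r ≤ 1 - Real.exp (-(rho s(v, y) : ℝ))) →
      (∀ N : Finset Γ, L' ⊆ N → N ⊆ L' ∪ Y →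
        1 - q ^ N.card ≤ (P rho).real {om : Sym2 Γ → ℕ | Big om R' (↑N : Set Γ) j}) →
      1 - q ^ L'.card * (1 - r * (1 - q)) ^ Y.card ≤
        (P rho).real {om : Sym2 Γ → ℕ | Big om R' {l | l ∈ L' ∨ (l ∈ Y ∧ om s(v, l) ≠ 0)} j} := by
  induction Y using Finset.induction_on with
  | empty =>
    intro L' _ _ hN
    have h1 := hN L' subset_rfl (by simp)
    have h2 : ∀ om : Sym2 Γ → ℕ, {l | l ∈ L' ∨ (l ∈ (∅ : Finset Γ) ∧ om s(v, l) ≠ 0)}
        = (↑L' : Set Γ) := by
      intro om; ext l; simp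
    simp only [h2]
    simpa using h1
  | insert y Y' hy ih =>
    intro L' hdis hr hN
    have hyL : y ∉ L' := by
      intro h
      exact (Finset.disjoint_left.1 hdis h) (Finset.mem_insert_self y Y')
    have hdis' : Disjoint L' Y' := hdis.mono_right (Finset.subset_insert y Y')
    have hdis2 : Disjoint (insert y L') Y' := by
      rw [Finset.disjoint_insert_left]
      exact ⟨hy, hdis'⟩
    have ih1 := ih (insert y L') hdis2 (fun z hz => hr z (Finset.mem_insert_of_mem hz))
      (fun N h1 h2 => hN N ((Finset.subset_insert y L').trans h1) (by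
        intro z hz
        have := h2 hz
        simp only [Finset.mem_union, Finset.mem_insert] at this ⊢
        tauto))
    have ih0 := ih L' hdis' (fun z hz => hr z (Finset.mem_insert_of_mem hz))
      (fun N h1 h2 => hN N h1 (by
        intro z hz
        have := h2 hz
        simp only [Finset.mem_union, Finset.mem_insert] at this ⊢
        tauto))
    set T : Set (Sym2 Γ) := {e | ∃ z ∈ Y', e = s(v, z)} ∪ inner R' with hT
    have heT : s(v, y) ∉ T := by
      rintro (⟨z, hz, h⟩ | h)
      · have : y = z := by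
          have := Sym2.eq_iff.1 h
          rcases this with ⟨_, h2⟩ | ⟨h1, h2⟩
          · exact h2
          · rw [h2, ← h1]
        exact hy (this ▸ hz)
      · exact hv (h v (Sym2.mem_mk_left v y))
    have hmeas : ∀ L : Finset Γ, MeasurableSet[sg T]
        {om : Sym2 Γ → ℕ | Big om R' {l | l ∈ L ∨ (l ∈ Y' ∧ om s(v, l) ≠ 0)} j} := by
      intro L
      refine meas_big R' (fun om => {l | l ∈ L ∨ (l ∈ Y' ∧ om s(v, l) ≠ 0)}) j (sg T)
        (sg_mono (by rw [hT]; exact subset_union_right)) (fun l => ?_)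
      by_cases hl : l ∈ L
      · have : {om : Sym2 Γ → ℕ | l ∈ {l | l ∈ L ∨ (l ∈ Y' ∧ om s(v, l) ≠ 0)}} = univ := by
          ext om; simp [hl]
        rw [this]; exact @MeasurableSet.univ _ (sg T)
      · by_cases hl2 : l ∈ Y'
        · have : {om : Sym2 Γ → ℕ | l ∈ {l | l ∈ L ∨ (l ∈ Y' ∧ om s(v, l) ≠ 0)}}
              = {om | om s(v, l) ≠ 0} := by
            ext om; simp [hl, hl2]
          rw [this]
          exact meas_open (Or.inl ⟨l, hl2, rfl⟩)
        · have : {om : Sym2 Γ → ℕ | l ∈ {l | l ∈ L ∨ (l ∈ Y' ∧ om s(v, l) ≠ 0)}} = ∅ := by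
            ext om; simp [hl, hl2]
          rw [this]; exact @MeasurableSet.empty _ (sg T)
    have hsp := split_ge rho s(v, y) T heT (hmeas (insert y L')) (hmeas L')
      (G := {om : Sym2 Γ → ℕ | Big om R' {l | l ∈ L' ∨ (l ∈ insert y Y' ∧ om s(v, l) ≠ 0)} j})
      (by
        intro om ho hG
        have : {l | l ∈ insert y L' ∨ (l ∈ Y' ∧ om s(v, l) ≠ 0)}
            = {l | l ∈ L' ∨ (l ∈ insert y Y' ∧ om s(v, l) ≠ 0)} := by
          ext l
          simp only [Finset.mem_insert, mem_ofPred_eq]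
          constructor
          · rintro ((rfl | h) | h)
            · exact Or.inr ⟨Or.inl rfl, ho⟩
            · exact Or.inl h
            · exact Or.inr ⟨Or.inr h.1, h.2⟩
          · rintro (h | ⟨rfl | h, h2⟩)
            · exact Or.inl (Or.inr h)
            · exact Or.inl (Or.inl rfl)
            · exact Or.inr ⟨h, h2⟩
        rw [mem_ofPred_eq] at hG ⊢
        rw [← this]; exact hG)
      (by
        intro om ho hG
        have : {l | l ∈ L' ∨ (l ∈ Y' ∧ om s(v, l) ≠ 0)}
            = {l | l ∈ L' ∨ (l ∈ insert y Y' ∧ om s(v, l) ≠ 0)} := by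
          ext l
          simp only [Finset.mem_insert, mem_ofPred_eq]
          constructor
          · rintro (h | h)
            · exact Or.inl h
            · exact Or.inr ⟨Or.inr h.1, h.2⟩
          · rintro (h | ⟨rfl | h, h2⟩)
            · exact Or.inl h
            · exact absurd ho h2
            · exact Or.inr ⟨h, h2⟩
        rw [mem_ofPred_eq] at hG ⊢
        rw [← this]; exact hG)
    refine le_trans ?_ hsp
    have hp := hr y (Finset.mem_insert_self y Y')
    rw [Finset.card_insert_of_notMem hyL] at ih1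
    rw [Finset.card_insert_of_notMem hy]
    set c := Real.exp (-(rho s(v, y) : ℝ)) with hc
    have hc0 : 0 ≤ c := Real.exp_nonneg _
    have hc1 : c ≤ 1 := by rw [hc]; exact Real.exp_le_one_iff.2 (by simp)
    set w := q ^ L'.card * (1 - r * (1 - q)) ^ Y'.card with hw
    have hw0 : 0 ≤ w := by
      have : 0 ≤ 1 - r * (1 - q) := by nlinarith
      positivity
    have e1 : 1 - q * w ≤ (P rho).real {om : Sym2 Γ → ℕ | Big om R'
        {l | l ∈ insert y L' ∨ (l ∈ Y' ∧ om s(v, l) ≠ 0)} j} := by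
      refine le_trans (le_of_eq ?_) ih1
      rw [hw]; ring
    have e2 : 1 - q ^ L'.card * (1 - r * (1 - q)) ^ (Y'.card + 1) = 1 - w * (1 - r * (1 - q)) := by
      rw [hw]; ring
    rw [e2]
    have e3 : (1 - c) * (1 - q * w) + c * (1 - w) ≤
        (1 - c) * (P rho).real {om : Sym2 Γ → ℕ | Big om R'
        {l | l ∈ insert y L' ∨ (l ∈ Y' ∧ om s(v, l) ≠ 0)} j} +
        c * (P rho).real {om : Sym2 Γ → ℕ | Big om R' {l | l ∈ L' ∨ (l ∈ Y' ∧ om s(v, l) ≠ 0)} j} :=
      add_le_add (mul_le_mul_of_nonneg_left e1 (by linarith)) (mul_le_mul_of_nonneg_left ih0 hc0)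
    refine le_trans ?_ e3
    have e4 : 0 ≤ w * ((1 - q) * ((1 - c) - r)) :=
      mul_nonneg hw0 (mul_nonneg (by linarith) (by linarith))
    nlinarith [e4]

theorem explore [Group Γ] (rho : Sym2 Γ → ℝ≥0) (D : Finset Γ) (M : ℕ) (q r : ℝ)
    (hq0 : 0 ≤ q) (hq1 : q ≤ 1) (hr0 : 0 ≤ r) (hr1 : r ≤ 1)
    (hr : ∀ g, ∀ d ∈ D, r ≤ 1 - Real.exp (-(rho s(g, g * d) : ℝ)))
    (hkey : (1 - r * (1 - q)) ^ (D.card - M) ≤ q) :
    ∀ (j : ℕ) (X L : Finset Γ) (R : Set Γ), (↑L ⊆ R) → X.card + j ≤ M →
      (∀ l ∈ L, ∀ y ∈ (insert 1 D) ^ j, l * y ∈ R ∨ l * y ∈ X) →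
      1 - q ^ L.card ≤ (P rho).real {om : Sym2 Γ → ℕ | Big om R (↑L : Set Γ) j} := by
  intro j
  induction j with
  | zero =>
    intro X L R _ _ _
    have h1 : {om : Sym2 Γ → ℕ | Big om R (↑L : Set Γ) 0} = univ := by
      ext om
      simp only [mem_ofPred_eq, mem_univ, iff_true]
      exact ⟨∅, le_rfl, by simp⟩
    rw [h1, probReal_univ]
    have : 0 ≤ q ^ L.card := by positivity
    linarith
  | succ j ih =>
    intro X L R hLR hXM hreg
    by_cases hbig : j + 1 ≤ L.card
    · have h1 : {om : Sym2 Γ → ℕ | Big om R (↑L : Set Γ) (j + 1)} = univ := by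
        ext om
        simp only [mem_ofPred_eq, mem_univ, iff_true]
        exact ⟨L, hbig, fun h hh => ⟨h, hh, Relation.ReflTransGen.refl⟩⟩
      rw [h1, probReal_univ]
      have : 0 ≤ q ^ L.card := by positivity
      linarith
    by_cases hL : L = ∅
    · subst hL
      simp
    obtain ⟨v, hv⟩ := Finset.nonempty_iff_ne_empty.2 hL
    set L0 := L.erase v with hL0
    set R' : Set Γ := R \ {v} with hR'
    set Y : Finset Γ := (D.image (fun d => v * d)) \ (X ∪ L) with hY
    have hvR : v ∈ R := hLR hv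
    have hvR' : v ∉ R' := by simp [hR']
    have hone : (1 : Γ) ∈ insert 1 D := Finset.mem_insert_self 1 D
    have hpow : (insert 1 D : Finset Γ) ^ j ⊆ (insert 1 D) ^ (j + 1) :=
      Finset.pow_subset_pow_right hone (Nat.le_succ j)
    have hmul : ∀ d ∈ D, ∀ y ∈ (insert 1 D : Finset Γ) ^ j, d * y ∈ (insert 1 D : Finset Γ) ^ (j + 1) := by
      intro d hd y hy
      rw [pow_succ']
      exact Finset.mul_mem_mul (Finset.mem_insert_of_mem hd) hy
    have hYR : ∀ y ∈ Y, y ∈ R' := by
      intro y hy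
      rw [hY, Finset.mem_sdiff, Finset.mem_image] at hy
      obtain ⟨⟨d, hd, rfl⟩, hn⟩ := hy
      rw [Finset.mem_union, not_or] at hn
      have h1 : d ∈ (insert 1 D : Finset Γ) ^ (j + 1) := by
        have := hmul d hd 1 (Finset.one_mem_pow hone)
        simpa using this
      rcases hreg v hv d h1 with h2 | h2
      · refine ⟨h2, ?_⟩
        intro h3
        rw [mem_singleton_iff] at h3
        exact hn.2 (h3.symm ▸ hv)
      · exact absurd h2 hn.1
    have hL0R : ∀ l ∈ L0, l ∈ R' := by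
      intro l hl
      rw [hL0, Finset.mem_erase] at hl
      exact ⟨hLR hl.2, hl.1⟩
    have hdis : Disjoint L0 Y := by
      rw [Finset.disjoint_left]
      intro l hl hl2
      rw [hY, Finset.mem_sdiff, Finset.mem_union, not_or] at hl2
      exact hl2.2.2 (Finset.mem_of_mem_erase hl)
    have hrev := reveal rho v R' hvR' j q r hq0 hq1 hr0 hr1 Y L0 hdis
      (by
        intro y hy
        rw [hY, Finset.mem_sdiff, Finset.mem_image] at hy
        obtain ⟨⟨d, hd, rfl⟩, _⟩ := hy
        exact hr v d hd)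
      (by
        intro N hN1 hN2
        refine ih (insert v X) N R' ?_ ?_ ?_
        · intro l hl
          rcases Finset.mem_union.1 (hN2 hl) with h | h
          · exact hL0R l h
          · exact hYR l h
        · have := Finset.card_insert_le v X
          omega
        · intro l hl y hy
          have h1 : l * y ∈ R ∨ l * y ∈ X := by
            rcases Finset.mem_union.1 (hN2 hl) with h | h
            · exact hreg l (Finset.mem_of_mem_erase h) y (hpow hy)
            · rw [hY, Finset.mem_sdiff, Finset.mem_image] at h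
              obtain ⟨⟨d, hd, rfl⟩, _⟩ := h
              rw [mul_assoc]
              exact hreg v hv (d * y) (hmul d hd y hy)
          rcases h1 with h1 | h1
          · by_cases h2 : l * y = v
            · right; rw [h2]; exact Finset.mem_insert_self v X
            · left; exact ⟨h1, h2⟩
          · right; exact Finset.mem_insert_of_mem h1)
    have hYc : D.card - M ≤ Y.card := by
      have h1 : (D.image (fun d => v * d)).card = D.card :=
        Finset.card_image_of_injective D (mul_right_injective v)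
      have h2 := Finset.le_card_sdiff (X ∪ L) (D.image (fun d => v * d))
      rw [h1, ← hY] at h2
      have h3 := Finset.card_union_le X L
      omega
    have hb0 : 0 ≤ 1 - r * (1 - q) := by nlinarith
    have hb1 : 1 - r * (1 - q) ≤ 1 := by nlinarith
    have hYq : (1 - r * (1 - q)) ^ Y.card ≤ q :=
      (pow_le_pow_of_le_one hb0 hb1 hYc).trans hkey
    have hcard : L.card = L0.card + 1 := by
      rw [hL0, Finset.card_erase_of_mem hv]
      have : 0 < L.card := Finset.card_pos.2 ⟨v, hv⟩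
      omega
    have h5 : 1 - q ^ L.card ≤ 1 - q ^ L0.card * (1 - r * (1 - q)) ^ Y.card := by
      rw [hcard, pow_succ]
      have : q ^ L0.card * (1 - r * (1 - q)) ^ Y.card ≤ q ^ L0.card * q :=
        mul_le_mul_of_nonneg_left hYq (by positivity)
      linarith
    refine h5.trans (hrev.trans ?_)
    refine measureReal_mono ?_ (measure_ne_top _ _)
    rintro om ⟨F, hF1, hF2⟩
    have hlR' : ∀ l ∈ {l | l ∈ L0 ∨ (l ∈ Y ∧ om s(v, l) ≠ 0)}, l ∈ R' := by
      rintro l (h | h)
      · exact hL0R l h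
      · exact hYR l h.1
    have hvF : v ∉ F := by
      intro h
      obtain ⟨l, hl, hc⟩ := hF2 v h
      exact hvR' (hc.mem (hlR' l hl))
    refine ⟨insert v F, ?_, ?_⟩
    · rw [Finset.card_insert_of_notMem hvF]; omega
    · intro h hh
      rcases Finset.mem_insert.1 hh with rfl | hh
      · exact ⟨h, hv, Relation.ReflTransGen.refl⟩
      · obtain ⟨l, hl, hc⟩ := hF2 h hh
        have hc' : Conn om R l h := hc.mono sdiff_subset
        rcases hl with hl | hl
        · exact ⟨l, Finset.mem_of_mem_erase hl, hc'⟩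
        · exact ⟨v, hv, Relation.ReflTransGen.head ⟨hvR, (hYR l hl.1).1, hl.2⟩ hc'⟩

end Pool.Agent.X136.PT
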