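import Pool.Agent.X136.PT.Base

open MeasureTheory ProbabilityTheory Set
open scoped ENNReal NNReal Classical Pointwise

namespace Pool.Agent.X136.PT

variable {Γ : Type*} [Countable Γ] [Group Γ]

/-- whatever the means, as long as they dominate `m`, the cluster of `g` inside `g B` has at
least `M` vertices with probability at least `θ` -/
def Good (m : Γ → ℝ≥0) (B : Finset Γ) (M : ℕ) (θ : ℝ) : Prop :=
  1 ∈ B ∧ ∀ rho : Sym2 Γ → ℝ≥0, (∀ g a, m a ≤ rho s(g, g * a)) → ∀ g : Γ,
    θ ≤ (P rho).real {om : Sym2 Γ → ℕ | Big om ((fun b => g * b) '' (↑B : Set Γ)) {g} M}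

theorem exp_bd {y : ℝ} (h0 : 0 ≤ y) (h1 : y ≤ 1) : Real.exp (-y) ≤ 1 - y + y ^ 2 := by
  have h := Real.abs_exp_sub_one_sub_id_le (x := -y) (by rw [abs_neg, abs_of_nonneg h0]; exact h1)
  have := (abs_le.1 h).2
  nlinarith

theorem base [Infinite Γ] (l0 : ℝ≥0) (hl : 1 < l0) : ∃ θ : ℝ, 0 < θ ∧ θ ≤ 1 ∧ ∀ M : ℕ,
    ∃ (m : Γ → ℝ≥0) (B : Finset Γ), (∀ a, m a = m a⁻¹) ∧ ∑' a, (m a : ℝ≥0∞) ≤ l0 ∧
      Good m B M θ := by
  set l : ℝ := (l0 : ℝ) with hldef
  have hl' : 1 < l := by rw [hldef]; exact_mod_cast hl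
  set l1 : ℝ := (1 + l) / 2 with hl1
  have h11 : 1 < l1 := by rw [hl1]; linarith
  have h12 : l1 < l := by rw [hl1]; linarith
  set x : ℝ := (l1 - 1) / l1 ^ 2 with hx
  have hx0 : 0 < x := by rw [hx]; exact div_pos (by linarith) (by positivity)
  have hx1 : x ≤ 1 := by
    rw [hx, div_le_one (by positivity)]
    nlinarith
  have hxe : Real.exp (-(l1 * x)) ≤ 1 - x := by
    have h1 : l1 * x = (l1 - 1) / l1 := by rw [hx]; field_simp
    have h2 : l1 * x ≤ 1 := by
      rw [h1, div_le_one (by linarith)]; linarith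
    have h3 := exp_bd (by positivity : 0 ≤ l1 * x) h2
    have h4 : (l1 * x) ^ 2 = (l1 - 1) * x := by
      rw [hx]; field_simp
    rw [h4] at h3
    linarith
  refine ⟨x, hx0, hx1, fun M => ?_⟩
  obtain ⟨N, hN⟩ := exists_nat_ge (l * (l + M) / (l - l1) + l + M + 1)
  obtain ⟨A, hA⟩ := Infinite.exists_subset_card_eq Γ N
  set D : Finset Γ := A ∪ A⁻¹ with hD
  have hDinv : ∀ a, a ∈ D ↔ a⁻¹ ∈ D := by
    intro a
    rw [hD]
    simp only [Finset.mem_union, Finset.mem_inv']
    rw [inv_inv]
    tauto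
  have hDc : N ≤ D.card := by
    rw [← hA]; exact Finset.card_le_card (by rw [hD]; exact Finset.subset_union_left)
  set n : ℕ := D.card with hn
  have hnR : l * (l + M) / (l - l1) + l + M + 1 ≤ (n : ℝ) := hN.trans (by exact_mod_cast hDc)
  have hpos1 : 0 ≤ l * (l + M) / (l - l1) := by
    apply div_nonneg
    · positivity
    · linarith
  have hM0 : (0 : ℝ) ≤ M := by positivity
  have hnl : l ≤ n := by linarith
  have hnM : (M : ℝ) ≤ n := by linarith
  have hn0 : (0 : ℝ) < n := by linarith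
  have hnMN : M ≤ n := by exact_mod_cast hnM
  have hn1 : l * (l + M) ≤ (n : ℝ) * (l - l1) := by
    have h1 : l * (l + M) / (l - l1) ≤ n := by linarith
    rwa [div_le_iff₀ (by linarith)] at h1
  set y : ℝ := l / n with hy
  have hy0 : 0 ≤ y := by positivity
  have hy1 : y ≤ 1 := by rw [hy, div_le_one hn0]; exact hnl
  set r : ℝ := 1 - Real.exp (-y) with hr
  have hr0 : 0 ≤ r := by
    have : Real.exp (-y) ≤ 1 := Real.exp_le_one_iff.2 (by linarith)
    rw [hr]; linarith
  have hr1 : r ≤ 1 := by rw [hr]; linarith [Real.exp_nonneg (-y)]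
  have hrl : l1 ≤ r * (n - M) := by
    have h1 : y - y ^ 2 ≤ r := by
      have := exp_bd hy0 hy1
      rw [hr]; linarith
    have h2 : (y - y ^ 2) * (n - M) ≤ r * (n - M) :=
      mul_le_mul_of_nonneg_right h1 (by linarith)
    refine le_trans ?_ h2
    have h3 : (y - y ^ 2) * (n - M) = l * (n - l) * (n - M) / n ^ 2 := by
      rw [hy]; field_simp
    rw [h3, le_div_iff₀ (by positivity)]
    nlinarith [mul_nonneg (mul_nonneg (by linarith : (0:ℝ) ≤ l) (by linarith : (0:ℝ) ≤ l)) hM0]
  refine ⟨fun a => if a ∈ D then l0 / n else 0, (insert 1 D) ^ M, ?_, ?_, ?_, ?_⟩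
  · intro a
    by_cases h : a ∈ D
    · simp only [h, (hDinv a).1 h, if_true]
    · have h' : a⁻¹ ∉ D := fun h2 => h ((hDinv a).2 h2)
      simp only [h, h', if_false]
  · rw [tsum_eq_sum (s := D) (by intro b hb; simp [hb])]
    rw [Finset.sum_congr rfl (g := fun _ => ((l0 / n : ℝ≥0) : ℝ≥0∞)) (by
      intro b hb; simp [hb])]
    rw [Finset.sum_const, nsmul_eq_mul, ← hn]
    rw [← ENNReal.coe_natCast, ← ENNReal.coe_mul]
    refine ENNReal.coe_le_coe.2 (le_of_eq ?_)
    have : (n : ℝ≥0) ≠ 0 := by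
      intro h
      have : (n : ℝ) = 0 := by exact_mod_cast h
      linarith
    field_simp
  · exact Finset.one_mem_pow (Finset.mem_insert_self 1 D)
  · intro rho hrho g
    have hex := explore rho D M (1 - x) r (by linarith) (by linarith) hr0 hr1
      (by
        intro g d hd
        have h1 := hrho g d
        simp only [hd, if_true] at h1
        have h2 : y ≤ (rho s(g, g * d) : ℝ) := by
          have : ((l0 / n : ℝ≥0) : ℝ) ≤ (rho s(g, g * d) : ℝ) := by exact_mod_cast h1
          rw [NNReal.coe_div, NNReal.coe_natCast] at this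
          exact this
        rw [hr]
        have : Real.exp (-(rho s(g, g * d) : ℝ)) ≤ Real.exp (-y) := Real.exp_le_exp.2 (by linarith)
        linarith)
      (by
        have h1 : 1 - r * (1 - (1 - x)) ≤ Real.exp (-(r * x)) := by
          have := Real.add_one_le_exp (-(r * x))
          linarith
        have h2 : 0 ≤ 1 - r * (1 - (1 - x)) := by nlinarith
        calc (1 - r * (1 - (1 - x))) ^ (n - M) ≤ (Real.exp (-(r * x))) ^ (n - M) :=
              pow_le_pow_left₀ h2 h1 _
          _ = Real.exp (-(r * (n - M) * x)) := by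
              rw [← Real.exp_nat_mul, Nat.cast_sub hnMN]; congr 1; ring
          _ ≤ Real.exp (-(l1 * x)) := by
              apply Real.exp_le_exp.2
              have := mul_le_mul_of_nonneg_right hrl hx0.le
              linarith
          _ ≤ 1 - x := hxe)
      M ∅ {g} ((fun b => g * b) '' (↑((insert 1 D) ^ M : Finset Γ) : Set Γ))
      (by
        intro l hl
        rw [Finset.coe_singleton, mem_singleton_iff] at hl
        subst hl
        exact ⟨1, Finset.one_mem_pow (Finset.mem_insert_self 1 D), by simp⟩)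
      (by simp)
      (by
        intro l hl y hy
        rw [Finset.mem_singleton] at hl
        subst hl
        exact Or.inl ⟨y, hy, rfl⟩)
    rw [Finset.card_singleton, Finset.coe_singleton] at hex
    refine le_trans (le_of_eq ?_) hex
    ring

end Pool.Agent.X136.PT
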