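import Mathlib

open MeasureTheory ProbabilityTheory Set
open scoped ENNReal NNReal

namespace Pool.Agent.X136.PT

/-- A generating measure on a group `Γ`: a probability measure (mass function) `mu` on `Γ` which
is symmetric, `mu g = mu g⁻¹`, and whose support generates `Γ`. -/
structure GenMeasure (Γ : Type*) [Group Γ] where
  /-- the probability mass function -/
  toPMF : PMF Γ
  symm : ∀ g, toPMF g = toPMF g⁻¹
  gen : Subgroup.closure toPMF.support = ⊤

variable {Γ : Type*} [Group Γ]

/-- The mean `lam * mu (g⁻¹ h)` of the number of parallel edges between `g` and `h`. -/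
noncomputable def edgeMean (mu : GenMeasure Γ) (lam : ℝ≥0) : Sym2 Γ → ℝ≥0 :=
  Sym2.lift ⟨fun g h => lam * (mu.toPMF (g⁻¹ * h)).toNNReal, by
    intro g h
    dsimp only
    rw [mu.symm (g⁻¹ * h)]
    simp⟩

/-- The law of independent Poisson counts with means `rho e`, `e` running through the unordered
pairs. -/
noncomputable def P {E : Type*} (rho : E → ℝ≥0) : Measure (E → ℕ) :=
  Measure.infinitePi (fun e => poissonMeasure (rho e))

/-- The graph on `Γ` in which distinct `g`, `h` are joined when at least one of the parallel
edges between them is present. -/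
def graph (om : Sym2 Γ → ℕ) : SimpleGraph Γ where
  Adj g h := g ≠ h ∧ om s(g, h) ≠ 0
  symm := by
    constructor
    intro g h hh
    exact ⟨hh.1.symm, by rw [Sym2.eq_swap]; exact hh.2⟩
  loopless := by
    constructor
    intro g hg
    exact hg.1 rfl

/-- There is an infinite connected component. -/
def HasInfiniteComponent (om : Sym2 Γ → ℕ) : Prop :=
  ∃ C : (graph om).ConnectedComponent, C.supp.Infinite

/-- `lambda_c(mu)`: the supremum of the `lam > 0` such that almost surely `Γ_mu(lam)` has no
infinite connected component. -/
noncomputable def lambdaCMeasure (mu : GenMeasure Γ) : ℝ≥0∞ :=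
  ⨆ (lam : ℝ≥0) (_ : 0 < lam) (_ : P (edgeMean mu lam) {om | HasInfiniteComponent om} = 0),
    (lam : ℝ≥0∞)

/-- The percolation threshold `lambda_c(Γ)`: the infimum over all generating measures. -/
noncomputable def lambdaC (Γ : Type*) [Group Γ] : ℝ≥0∞ :=
  ⨅ mu : GenMeasure Γ, lambdaCMeasure mu

end Pool.Agent.X136.PT
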