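import Pool.Agent.X136.PT.Main

open MeasureTheory ProbabilityTheory Set
open scoped ENNReal NNReal Classical

namespace Pool.Agent.X136.PT

variable {Γ : Type*} [Countable Γ] [Group Γ]

/-- the masses for which all scales percolate -/
theorem masses [Infinite Γ] (lam : ℝ≥0) (hlam : 1 < lam) : ∃ (F : Γ → ℝ≥0∞) (θ : ℝ), 0 < θ ∧
    (∀ a, F a = F a⁻¹) ∧ ∑' a, F a < lam ∧ ∀ rho : Sym2 Γ → ℝ≥0,
      (∀ g a, F a ≤ rho s(g, g * a)) → ∀ j : ℕ,
      θ ≤ (P rho).real {om : Sym2 Γ → ℕ | Big om univ {(1 : Γ)} j} := by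
  set d : ℝ≥0 := (lam - 1) / 4 with hd
  have hd0 : 0 < d := by
    rw [hd]; exact div_pos (tsub_pos_of_lt hlam) (by norm_num)
  have hlamd : lam = 1 + 4 * d := by
    rw [hd, mul_div_cancel₀ _ (by norm_num : (4 : ℝ≥0) ≠ 0)]
    exact (add_tsub_cancel_of_le hlam.le).symm
  obtain ⟨θ0, h0, h1, hbase⟩ := base (Γ := Γ) (1 + d) (by simpa using hd0)
  obtain ⟨M0, hM0, hnum⟩ := numbers θ0 h0 d hd0
  obtain ⟨m0, B0, hm1, hm2, hm3⟩ := hbase M0
  set p : ℕ → ℝ≥0 := fun k => d / 3 * (2 / 3) ^ k with hp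
  set θ : ℕ → ℝ := fun k => θ0 * (1 / 2 + (1 / 2) ^ (k + 1)) with hθ
  have hθ0 : ∀ k, 0 ≤ θ k := fun k => by rw [hθ]; positivity
  have hθh : ∀ k, θ0 / 2 ≤ θ k := fun k => by
    rw [hθ]
    have : 0 ≤ θ0 * (1 / 2 : ℝ) ^ (k + 1) := by positivity
    dsimp only
    nlinarith
  have hθ1 : ∀ k, θ k ≤ 1 := fun k => by
    rw [hθ]
    dsimp only
    have h2 : (1 / 2 : ℝ) ^ (k + 1) ≤ 1 / 2 := by
      rw [pow_succ]
      have : (1 / 2 : ℝ) ^ k ≤ 1 := pow_le_one₀ (by norm_num) (by norm_num)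
      linarith
    calc θ0 * (1 / 2 + (1 / 2) ^ (k + 1)) ≤ 1 * 1 :=
          mul_le_mul h1 (by linarith) (by positivity) zero_le_one
      _ = 1 := one_mul 1
  obtain ⟨s, hs1, hs2⟩ := exists_seq (Γ := Γ) (1 + d) p θ M0 hθ0 hθ1 hnum (m0, B0) (by
    refine ⟨hm1, by simpa using hm2, ?_⟩
    have e1 : θ 0 = θ0 := by rw [hθ]; norm_num
    have e2 : 2 ^ 0 * M0 = M0 := by simp
    rw [e1, e2]
    exact hm3)
  have hmono : Monotone (fun k a => ((s k).1 a : ℝ≥0∞)) := by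
    refine monotone_nat_of_le_succ (fun k a => ?_)
    exact ENNReal.coe_le_coe.2 (hs2 k a)
  have hpsum : ∀ k, ∑ j ∈ Finset.range k, (p j : ℝ≥0∞) ≤ d := by
    intro k
    have h2 : ∀ k, (∑ j ∈ Finset.range k, p j : ℝ≥0) ≤ d := by
      intro k
      have h3 : ((∑ j ∈ Finset.range k, p j : ℝ≥0) : ℝ) = d * (1 - (2 / 3) ^ k) := by
        rw [hp]
        push_cast
        rw [← Finset.mul_sum, geom_sum_eq (by norm_num)]
        ring
      have h4 : ((∑ j ∈ Finset.range k, p j : ℝ≥0) : ℝ) ≤ d := by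
        rw [h3]
        have : (0 : ℝ) ≤ (2 / 3) ^ k := by positivity
        have hd' : (0 : ℝ) ≤ d := d.2
        nlinarith
      exact_mod_cast h4
    rw [← ENNReal.ofNNReal_finsetSum]
    exact ENNReal.coe_le_coe.2 (h2 k)
  refine ⟨fun a => ⨆ k, ((s k).1 a : ℝ≥0∞), θ0 / 2, by positivity, ?_, ?_, ?_⟩
  · intro a
    simp only [(hs1 _).1 a]
  · have h2 : ∑' a, ⨆ k, ((s k).1 a : ℝ≥0∞) ≤ ((1 + d + d : ℝ≥0) : ℝ≥0∞) := by
      refine tsum_iSup_le (fun k a => ((s k).1 a : ℝ≥0∞)) hmono _ (fun k => ?_)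
      refine ((hs1 k).2.1).trans ?_
      rw [ENNReal.coe_add (1 + d) d]
      exact add_le_add le_rfl (hpsum k)
    refine h2.trans_lt ?_
    rw [ENNReal.coe_lt_coe, hlamd]
    have hd' : (0 : ℝ) < d := by exact_mod_cast hd0
    have : ((1 + d + d : ℝ≥0) : ℝ) < ((1 + 4 * d : ℝ≥0) : ℝ) := by
      push_cast; linarith
    exact_mod_cast this
  · intro rho hrho j
    have h2 : j ≤ 2 ^ j * M0 := by
      calc j ≤ 2 ^ j := Nat.lt_two_pow_self.le
        _ ≤ 2 ^ j * M0 := Nat.le_mul_of_pos_right _ hM0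
    have h3 := (hs1 j).2.2.2 rho (fun g a => by
      have h4 := hrho g a
      have h5 : ((s j).1 a : ℝ≥0∞) ≤ ⨆ k, ((s k).1 a : ℝ≥0∞) :=
        le_iSup (fun k => ((s k).1 a : ℝ≥0∞)) j
      exact ENNReal.coe_le_coe.1 (h5.trans h4)) 1
    refine (hθh j).trans (h3.trans (measureReal_mono ?_ (measure_ne_top _ _)))
    rintro om ⟨F, hF1, hF2⟩
    refine ⟨F, h2.trans hF1, fun h hh => ?_⟩
    obtain ⟨l, hl, hc⟩ := hF2 h hh
    exact ⟨l, hl, hc.mono (subset_univ _)⟩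

theorem percolates (rho : Sym2 Γ → ℝ≥0) (θ : ℝ) (hθ : 0 < θ)
    (h : ∀ j : ℕ, θ ≤ (P rho).real {om : Sym2 Γ → ℕ | Big om univ {(1 : Γ)} j}) :
    P rho {om | HasInfiniteComponent om} ≠ 0 := by
  intro h0
  have hmeas : ∀ j, MeasurableSet {om : Sym2 Γ → ℕ | Big om univ {(1 : Γ)} j} := fun j =>
    sg_le _ _ (meas_big_const univ {(1 : Γ)} j)
  have hanti : Antitone (fun j => {om : Sym2 Γ → ℕ | Big om univ {(1 : Γ)} j}) := by
    intro j j' hjj om hom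
    obtain ⟨F, hF1, hF2⟩ := hom
    exact ⟨F, hjj.trans hF1, hF2⟩
  have hlim := tendsto_measure_iInter_atTop (μ := P rho) (fun j => (hmeas j).nullMeasurableSet)
    hanti ⟨0, measure_ne_top _ _⟩
  have hsub : (⋂ j, {om : Sym2 Γ → ℕ | Big om univ {(1 : Γ)} j}) ⊆
      {om | HasInfiniteComponent om} := by
    intro om hom
    refine ⟨(graph om).connectedComponentMk 1, ?_⟩
    intro hfin
    obtain ⟨F, hF1, hF2⟩ := mem_iInter.1 hom (hfin.toFinset.card + 1)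
    have hFs : F ⊆ hfin.toFinset := by
      intro x hx
      rw [Set.Finite.mem_toFinset]
      obtain ⟨l, hl, hc⟩ := hF2 x hx
      rw [mem_singleton_iff] at hl
      subst hl
      exact SimpleGraph.ConnectedComponent.eq.2 ((reach_iff om 1 x).2 hc).symm
    have := Finset.card_le_card hFs
    omega
  have hz : P rho (⋂ j, {om : Sym2 Γ → ℕ | Big om univ {(1 : Γ)} j}) = 0 :=
    measure_mono_null hsub h0
  rw [hz] at hlim
  have hge : ∀ j, ENNReal.ofReal θ ≤ P rho {om : Sym2 Γ → ℕ | Big om univ {(1 : Γ)} j} := by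
    intro j
    rw [← ofReal_measureReal (measure_ne_top _ _)]
    exact ENNReal.ofReal_le_ofReal (h j)
  have h5 : ENNReal.ofReal θ ≤ 0 := ge_of_tendsto' hlim hge
  have h6 : 0 < ENNReal.ofReal θ := ENNReal.ofReal_pos.2 hθ
  exact absurd h5 (not_le.2 h6)

omit [Countable Γ] in
theorem edgeMean_mk (mu : GenMeasure Γ) (lam : ℝ≥0) (g h : Γ) :
    edgeMean mu lam s(g, h) = lam * (mu.toPMF (g⁻¹ * h)).toNNReal := rfl

theorem lower (mu : GenMeasure Γ) : 1 ≤ lambdaCMeasure mu := by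
  refine le_of_forall_lt (fun c hc => ?_)
  obtain ⟨r, hr1, hr2⟩ := ENNReal.lt_iff_exists_nnreal_btwn.1 hc
  refine hr1.trans_le ?_
  have hr0 : 0 < r := by
    have : (0 : ℝ≥0∞) < r := (zero_le).trans_lt hr1
    exact_mod_cast this
  have hr2' : r < 1 := by exact_mod_cast hr2
  refine le_iSup_of_le r (le_iSup_of_le hr0 (le_iSup_of_le ?_ le_rfl))
  refine no_infinite r hr2' _ (fun g => ?_)
  have h1 : ∀ y, (edgeMean mu r s(g, y) : ℝ≥0∞) = r * mu.toPMF (g⁻¹ * y) := by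
    intro y
    rw [edgeMean_mk, ENNReal.coe_mul, ENNReal.coe_toNNReal (PMF.apply_ne_top _ _)]
  simp only [h1]
  rw [ENNReal.tsum_mul_left]
  have h2 : ∑' y, mu.toPMF (g⁻¹ * y) = 1 := by
    rw [← mu.toPMF.tsum_coe]
    exact (Equiv.mulLeft g⁻¹).tsum_eq (fun y => mu.toPMF y)
  rw [h2, mul_one]

theorem upper [Infinite Γ] (lam : ℝ≥0) (hlam : 1 < lam) :
    ∃ mu : GenMeasure Γ, lambdaCMeasure mu ≤ lam := by
  obtain ⟨F, θ, hθ, hF1, hF2, hF3⟩ := masses (Γ := Γ) lam hlam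
  set R : ℝ≥0∞ := lam - ∑' a, F a with hR
  have hR0 : R ≠ 0 := (tsub_pos_of_lt hF2).ne'
  obtain ⟨e, he1, he2⟩ := ENNReal.exists_pos_sum_of_countable (ENNReal.half_pos hR0).ne' Γ
  set F2 : Γ → ℝ≥0∞ := fun a => F a + ((e a : ℝ≥0∞) + (e a⁻¹ : ℝ≥0∞)) with hF2def
  have hinv : ∑' a : Γ, (e a⁻¹ : ℝ≥0∞) = ∑' a, (e a : ℝ≥0∞) :=
    (Equiv.inv Γ).tsum_eq (fun a => (e a : ℝ≥0∞))
  have hW : ∑' a, F2 a ≤ lam := by
    rw [hF2def, ENNReal.tsum_add, ENNReal.tsum_add, hinv]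
    calc ∑' a, F a + (∑' a, (e a : ℝ≥0∞) + ∑' a, (e a : ℝ≥0∞)) ≤ ∑' a, F a + (R / 2 + R / 2) :=
          add_le_add le_rfl (add_le_add he2.le he2.le)
      _ = ∑' a, F a + R := by rw [ENNReal.add_halves]
      _ = lam := by rw [hR]; exact add_tsub_cancel_of_le hF2.le
  have hpos : ∀ a, F2 a ≠ 0 := by
    intro a h
    rw [hF2def] at h
    simp only [add_eq_zero, ENNReal.coe_eq_zero] at h
    exact (he1 a).ne' h.2.1
  have hW0 : ∑' a, F2 a ≠ 0 := by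
    intro h
    exact hpos 1 (ENNReal.tsum_eq_zero.1 h 1)
  have hWt : ∑' a, F2 a ≠ ∞ := ne_top_of_le_ne_top ENNReal.coe_ne_top hW
  set W : ℝ≥0∞ := ∑' a, F2 a with hWdef
  have hsymm : ∀ a, F2 a = F2 a⁻¹ := by
    intro a
    simp only [hF2def, inv_inv]
    rw [← hF1 a, add_comm (e a⁻¹ : ℝ≥0∞)]
  let mu : GenMeasure Γ :=
    { toPMF := PMF.normalize F2 hW0 hWt
      symm := fun g => by
        rw [PMF.normalize_apply, PMF.normalize_apply, ← hsymm g]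
      gen := by
        have : (PMF.normalize F2 hW0 hWt).support = univ := by
          rw [PMF.support_normalize]
          ext a; simp [hpos a]
        rw [this]
        exact Subgroup.closure_univ }
  have hmu : ∀ a, mu.toPMF a = F2 a * W⁻¹ := fun a => PMF.normalize_apply hW0 hWt a
  refine ⟨mu, ?_⟩
  refine iSup_le (fun l => iSup_le (fun _ => iSup_le (fun h0 => ?_)))
  by_contra hcon
  rw [not_le] at hcon
  refine percolates (edgeMean mu l) θ hθ ?_ h0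
  refine hF3 (edgeMean mu l) (fun g a => ?_)
  rw [edgeMean_mk, inv_mul_cancel_left, ENNReal.coe_mul,
    ENNReal.coe_toNNReal (PMF.apply_ne_top _ _), hmu a]
  have h7 : W ≤ l := hW.trans hcon.le
  calc F a ≤ F2 a := le_self_add
    _ = W * (F2 a * W⁻¹) := by
        rw [mul_comm (F2 a), ← mul_assoc, ENNReal.mul_inv_cancel hW0 hWt, one_mul]
    _ ≤ l * (F2 a * W⁻¹) := mul_le_mul' h7 le_rfl

/-- every infinite countable group has percolation threshold `1` -/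
theorem lambdaC_eq_one [Infinite Γ] : lambdaC Γ = 1 := by
  refine le_antisymm ?_ (le_iInf (fun mu => lower mu))
  refine le_of_forall_gt_imp_ge_of_dense (fun c hc => ?_)
  obtain ⟨r, hr1, hr2⟩ := ENNReal.lt_iff_exists_nnreal_btwn.1 hc
  obtain ⟨mu, hmu⟩ := upper (Γ := Γ) r (by exact_mod_cast hr1)
  exact (iInf_le _ mu).trans (hmu.trans hr2.le)

end Pool.Agent.X136.PT
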