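import Pool.Agent.X136.PT.Prob

open MeasureTheory ProbabilityTheory Set
open scoped ENNReal NNReal Classical

namespace Pool.Agent.X136.PT

variable {Γ : Type*} [Countable Γ]

omit [Countable Γ] in
theorem path_split (om : Sym2 Γ → ℕ) (B : Set Γ) (g h : Γ) (hg : h ≠ g) (n : ℕ) :
    ∀ x, pathN om B n x h → (∃ m ≤ n, x ≠ g ∧ pathN om (B \ {g}) m x h) ∨
      (∃ y, ∃ m < n, om s(g, y) ≠ 0 ∧ y ≠ g ∧ pathN om (B \ {g}) m y h) := by
  induction n with
  | zero =>
    intro x hx
    left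
    refine ⟨0, le_rfl, ?_, hx⟩
    have : x = h := hx
    rw [this]; exact hg
  | succ n ih =>
    intro x hx
    obtain ⟨z, ⟨hxB, hzB, ho⟩, hz⟩ := hx
    rcases ih z hz with ⟨m, hm, hzg, hp⟩ | ⟨y, m, hm, h1, h2, h3⟩
    · by_cases hxg : x = g
      · right
        subst hxg
        exact ⟨z, m, by omega, ho, hzg, hp⟩
      · left
        exact ⟨m + 1, by omega, hxg, z, ⟨⟨hxB, hxg⟩, ⟨hzB, hzg⟩, ho⟩, hp⟩
    · right
      exact ⟨y, m, by omega, h1, h2, h3⟩

theorem prob_open_le {E : Type*} (rho : E → ℝ≥0) (e : E) :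
    P rho {om : E → ℕ | om e ≠ 0} ≤ rho e := by
  have h1 : (P rho).real {om : E → ℕ | om e ≠ 0} ≤ rho e := by
    rw [prob_open]
    have := Real.add_one_le_exp (-(rho e : ℝ))
    linarith
  have h2 : P rho {om : E → ℕ | om e ≠ 0} = ENNReal.ofReal ((P rho).real {om : E → ℕ | om e ≠ 0}) :=
    (ofReal_measureReal (measure_ne_top _ _)).symm
  rw [h2]
  refine (ENNReal.ofReal_le_ofReal h1).trans (le_of_eq ?_)
  exact ENNReal.ofReal_coe_nnreal

/-- reached by a path of at most `n` steps -/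
def ev (n : ℕ) (B : Set Γ) (g h : Γ) : Set (Sym2 Γ → ℕ) := {om | ∃ m ≤ n, pathN om B m g h}

theorem ev_meas (n : ℕ) (B : Set Γ) (g h : Γ) : MeasurableSet[sg (inner B)] (ev n B g h) := by
  have : ev n B g h = ⋃ m : ℕ, ⋃ (_ : m ≤ n), {om | pathN om B m g h} := by
    ext om; simp [ev]
  rw [this]
  exact mU _ (fun m => mUp _ (fun _ => meas_path B m g h))

theorem tau_bound (lam : ℝ≥0) (rho : Sym2 Γ → ℝ≥0)
    (hrho : ∀ g, ∑' y, (rho s(g, y) : ℝ≥0∞) ≤ lam) (n : ℕ) : ∀ (B : Set Γ) (g : Γ),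
    ∑' h, P rho (ev n B g h) ≤ ∑ i ∈ Finset.range (n + 1), (lam : ℝ≥0∞) ^ i := by
  induction n with
  | zero =>
    intro B g
    have h1 : ∀ h, P rho (ev 0 B g h) ≤ if h = g then 1 else 0 := by
      intro h
      by_cases hh : h = g
      · simp only [hh, if_true]; exact prob_le_one
      · simp only [hh, if_false]
        have : ev 0 B g h = (∅ : Set (Sym2 Γ → ℕ)) := by
          ext om
          simp only [ev, mem_ofPred_eq, mem_empty_iff_false, iff_false]
          rintro ⟨m, hm, hp⟩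
          have : m = 0 := by omega
          subst this
          exact hh hp.symm
        rw [this]; simp
    refine (ENNReal.tsum_le_tsum h1).trans ?_
    rw [tsum_ite_eq]
    simp
  | succ n ih =>
    intro B g
    set Gn : ℝ≥0∞ := ∑ i ∈ Finset.range (n + 1), (lam : ℝ≥0∞) ^ i with hGn
    have h1 : ∀ h, P rho (ev (n + 1) B g h) ≤ (if h = g then 1 else 0) +
        ∑' y, (rho s(g, y) : ℝ≥0∞) * P rho (ev n (B \ {g}) y h) := by
      intro h
      by_cases hh : h = g
      · simp only [hh, if_true]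
        exact prob_le_one.trans le_self_add
      · simp only [hh, if_false, zero_add]
        have hsub : ev (n + 1) B g h ⊆ ⋃ y, ({om : Sym2 Γ → ℕ | om s(g, y) ≠ 0} ∩
            ev n (B \ {g}) y h) := by
          rintro om ⟨m, hm, hp⟩
          rcases path_split om B g h hh m g hp with ⟨_, _, h2, _⟩ | ⟨y, m', hm', h2, h3, h4⟩
          · exact absurd rfl h2
          · exact mem_iUnion.2 ⟨y, h2, m', by omega, h4⟩
        refine (measure_mono hsub).trans ((measure_iUnion_le _).trans ?_)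
        refine ENNReal.tsum_le_tsum (fun y => ?_)
        have hd : Disjoint ({s(g, y)} : Set (Sym2 Γ)) (inner (B \ {g})) := by
          rw [Set.disjoint_singleton_left]
          intro h2
          exact (h2 g (Sym2.mem_mk_left _ _)).2 rfl
        rw [indepP rho hd (meas_open rfl) (ev_meas n (B \ {g}) y h)]
        exact mul_le_mul' (prob_open_le rho _) le_rfl
    refine (ENNReal.tsum_le_tsum h1).trans ?_
    rw [ENNReal.tsum_add, tsum_ite_eq, ENNReal.tsum_comm]
    have h2 : ∑' y, ∑' h, (rho s(g, y) : ℝ≥0∞) * P rho (ev n (B \ {g}) y h) ≤ lam * Gn := by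
      calc ∑' y, ∑' h, (rho s(g, y) : ℝ≥0∞) * P rho (ev n (B \ {g}) y h)
          = ∑' y, (rho s(g, y) : ℝ≥0∞) * ∑' h, P rho (ev n (B \ {g}) y h) := by
            congr 1; ext y; rw [ENNReal.tsum_mul_left]
        _ ≤ ∑' y, (rho s(g, y) : ℝ≥0∞) * Gn :=
            ENNReal.tsum_le_tsum (fun y => mul_le_mul' le_rfl (ih (B \ {g}) y))
        _ = (∑' y, (rho s(g, y) : ℝ≥0∞)) * Gn := by rw [ENNReal.tsum_mul_right]
        _ ≤ lam * Gn := mul_le_mul' (hrho g) le_rfl
    refine (add_le_add le_rfl h2).trans (le_of_eq ?_)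
    rw [Finset.sum_range_succ' _ (n + 1), hGn, Finset.mul_sum, add_comm]
    simp [pow_succ']

/-- monotone limits of sums -/
theorem tsum_iSup_le {α : Type*} (f : ℕ → α → ℝ≥0∞) (hf : Monotone f) (C : ℝ≥0∞)
    (h : ∀ n, ∑' a, f n a ≤ C) : ∑' a, ⨆ n, f n a ≤ C := by
  rw [ENNReal.tsum_eq_iSup_sum]
  refine iSup_le (fun s => ?_)
  rw [ENNReal.finsetSum_iSup_of_monotone (fun a n m hnm => hf hnm a)]
  refine iSup_le (fun n => ?_)
  exact (ENNReal.sum_le_tsum s).trans (h n)

omit [Countable Γ] in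
theorem conn_prob (rho : Sym2 Γ → ℝ≥0) (g h : Γ) :
    P rho {om | Conn om univ g h} = ⨆ n, P rho (ev n univ g h) := by
  have h1 : {om : Sym2 Γ → ℕ | Conn om univ g h} = ⋃ n, ev n univ g h := by
    ext om
    simp only [mem_ofPred_eq, mem_iUnion, ev]
    rw [conn_iff]
    constructor
    · rintro ⟨n, hn⟩; exact ⟨n, n, le_rfl, hn⟩
    · rintro ⟨n, m, _, hm⟩; exact ⟨m, hm⟩
  have hmono : Monotone (fun n => ev n (univ : Set Γ) g h) := by
    intro n n' hnn om hom
    obtain ⟨m, hm, hp⟩ := hom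
    exact ⟨m, hm.trans hnn, hp⟩
  rw [h1, hmono.measure_iUnion]

theorem cluster_finite (lam : ℝ≥0) (hlam : lam < 1) (rho : Sym2 Γ → ℝ≥0)
    (hrho : ∀ g, ∑' y, (rho s(g, y) : ℝ≥0∞) ≤ lam) (g : Γ) :
    ∀ᵐ om ∂(P rho), Set.Finite {h | Conn om univ g h} := by
  have h1 : ∑' h, P rho {om : Sym2 Γ → ℕ | Conn om univ g h} ≤ (1 - (lam : ℝ≥0∞))⁻¹ := by
    simp only [conn_prob]
    refine tsum_iSup_le (fun n h => P rho (ev n univ g h)) ?_ _ (fun n => ?_)
    · intro n n' hnn h
      refine measure_mono ?_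
      rintro om ⟨m, hm, hp⟩
      exact ⟨m, hm.trans hnn, hp⟩
    · refine (tau_bound lam rho hrho n univ g).trans ?_
      rw [← ENNReal.tsum_geometric]
      exact ENNReal.sum_le_tsum _
  have h2 : (1 - (lam : ℝ≥0∞))⁻¹ ≠ ∞ := by
    rw [ENNReal.inv_ne_top]
    have : (lam : ℝ≥0∞) < 1 := by exact_mod_cast hlam
    exact (tsub_pos_of_lt this).ne'
  have h3 := ae_finite_setOfPred_mem (μ := P rho)
    (s := fun h : Γ => {om : Sym2 Γ → ℕ | Conn om univ g h})
    (ne_top_of_le_ne_top h2 h1)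
  exact h3

omit [Countable Γ] in
theorem reach_iff (om : Sym2 Γ → ℕ) (g h : Γ) :
    (graph om).Reachable g h ↔ Conn om univ g h := by
  rw [SimpleGraph.reachable_iff_reflTransGen]
  constructor
  · intro hh
    induction hh with
    | refl => exact Relation.ReflTransGen.refl
    | tail _ h1 ih => exact Relation.ReflTransGen.tail ih ⟨mem_univ _, mem_univ _, h1.2⟩
  · intro hh
    induction hh with
    | refl => exact Relation.ReflTransGen.refl
    | @tail b c _ h1 ih =>
      by_cases hbc : b = c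
      · rw [← hbc]; exact ih
      · exact Relation.ReflTransGen.tail ih ⟨hbc, h1.2.2⟩

theorem no_infinite (lam : ℝ≥0) (hlam : lam < 1) (rho : Sym2 Γ → ℝ≥0)
    (hrho : ∀ g, ∑' y, (rho s(g, y) : ℝ≥0∞) ≤ lam) :
    P rho {om | HasInfiniteComponent om} = 0 := by
  have h1 : ∀ᵐ om ∂(P rho), ∀ g : Γ, Set.Finite {h | Conn om univ g h} :=
    ae_all_iff.2 (fun g => cluster_finite lam hlam rho hrho g)
  have h2 : ∀ᵐ om ∂(P rho), ¬ HasInfiniteComponent om := by
    filter_upwards [h1] with om hom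
    rintro ⟨C, hC⟩
    induction C using SimpleGraph.ConnectedComponent.ind with
    | _ g =>
      apply hC
      refine (hom g).subset ?_
      intro h hh
      have : (graph om).Reachable h g := SimpleGraph.ConnectedComponent.eq.1 hh
      exact (reach_iff om g h).1 this.symm
  have h3 := ae_iff.1 h2
  simpa using h3

end Pool.Agent.X136.PT
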