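import Pool.Agent.X136.PT.Step2
import Pool.Agent.X136.PT.Sub

open MeasureTheory ProbabilityTheory Set
open scoped ENNReal NNReal Classical

namespace Pool.Agent.X136.PT

variable {Γ : Type*} [Countable Γ] [Group Γ]

/-- the statement carried along the construction -/
def Q (l0 : ℝ≥0) (p : ℕ → ℝ≥0) (θ : ℕ → ℝ) (M0 : ℕ) (k : ℕ) (s : (Γ → ℝ≥0) × Finset Γ) : Prop :=
  (∀ a, s.1 a = s.1 a⁻¹) ∧ ∑' a, (s.1 a : ℝ≥0∞) ≤ l0 + ∑ j ∈ Finset.range k, (p j : ℝ≥0∞) ∧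
    Good s.1 s.2 (2 ^ k * M0) (θ k)

theorem Q_succ [Infinite Γ] (l0 : ℝ≥0) (p : ℕ → ℝ≥0) (θ : ℕ → ℝ) (M0 : ℕ)
    (hθ0 : ∀ k, 0 ≤ θ k) (hθ1 : ∀ k, θ k ≤ 1)
    (hθ : ∀ k, θ (k + 1) ≤ θ k * (1 - Real.exp (-(θ k * p k * (2 ^ k * M0 : ℕ) / 4))))
    (k : ℕ) (s : (Γ → ℝ≥0) × Finset Γ) (hs : Q l0 p θ M0 k s) :
    ∃ s' : (Γ → ℝ≥0) × Finset Γ, Q l0 p θ M0 (k + 1) s' ∧ ∀ a, s.1 a ≤ s'.1 a := by
  obtain ⟨m', B', h1, h2, h3, h4⟩ := step s.1 s.2 (2 ^ k * M0) (θ k) (hθ0 k) (hθ1 k) hs.1 hs.2.2 (p k)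
  refine ⟨(m', B'), ⟨h1, ?_, ?_⟩, h2⟩
  · refine h3.trans ?_
    rw [Finset.sum_range_succ, ← add_assoc]
    exact add_le_add hs.2.1 le_rfl
  · refine ⟨h4.1, fun rho hrho g => ?_⟩
    have h5 := h4.2 rho hrho g
    have h6 : 2 ^ (k + 1) * M0 = 2 * (2 ^ k * M0) := by ring
    rw [h6]
    exact (hθ k).trans h5

theorem exists_seq [Infinite Γ] (l0 : ℝ≥0) (p : ℕ → ℝ≥0) (θ : ℕ → ℝ) (M0 : ℕ)
    (hθ0 : ∀ k, 0 ≤ θ k) (hθ1 : ∀ k, θ k ≤ 1)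
    (hθ : ∀ k, θ (k + 1) ≤ θ k * (1 - Real.exp (-(θ k * p k * (2 ^ k * M0 : ℕ) / 4))))
    (s0 : (Γ → ℝ≥0) × Finset Γ) (hs0 : Q l0 p θ M0 0 s0) :
    ∃ s : ℕ → (Γ → ℝ≥0) × Finset Γ, (∀ k, Q l0 p θ M0 k (s k)) ∧
      ∀ k a, (s k).1 a ≤ (s (k + 1)).1 a := by
  choose f hf1 hf2 using Q_succ (Γ := Γ) l0 p θ M0 hθ0 hθ1 hθ
  let F : (k : ℕ) → {s : (Γ → ℝ≥0) × Finset Γ // Q l0 p θ M0 k s} := fun k =>
    Nat.rec ⟨s0, hs0⟩ (fun k s => ⟨f k s.1 s.2, hf1 k s.1 s.2⟩) k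
  exact ⟨fun k => (F k).1, fun k => (F k).2, fun k a => hf2 k (F k).1 (F k).2 a⟩

/-- numbers -/
theorem numbers (θ0 : ℝ) (h0 : 0 < θ0) (δ : ℝ≥0) (hδ : 0 < δ) : ∃ M0 : ℕ, 1 ≤ M0 ∧
    ∀ k : ℕ, θ0 * (1 / 2 + (1 / 2) ^ (k + 1 + 1)) ≤ θ0 * (1 / 2 + (1 / 2) ^ (k + 1)) *
      (1 - Real.exp (-(θ0 * (1 / 2 + (1 / 2) ^ (k + 1)) * ((δ / 3 * (2 / 3) ^ k : ℝ≥0) : ℝ) *
        (2 ^ k * M0 : ℕ) / 4))) := by
  have hδ' : (0 : ℝ) < δ := by exact_mod_cast hδ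
  set c : ℝ := θ0 * δ / 24 with hc
  have hc0 : 0 < c := by positivity
  obtain ⟨M0, hM0⟩ := exists_nat_ge (3 / c + 1)
  refine ⟨M0, ?_, fun k => ?_⟩
  · have : (1 : ℝ) ≤ M0 := by
      have : 0 < 3 / c := by positivity
      linarith
    exact_mod_cast this
  have hcM : 3 ≤ c * M0 := by
    have h2 : 3 / c ≤ M0 := by linarith
    rw [div_le_iff₀ hc0] at h2; linarith
  set t : ℝ := (1 / 2 : ℝ) ^ (k + 1) with ht
  have ht0 : 0 < t := by positivity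
  have ht1 : t ≤ 1 / 2 := by
    rw [ht, pow_succ]
    have : (1 / 2 : ℝ) ^ k ≤ 1 := pow_le_one₀ (by norm_num) (by norm_num)
    linarith
  have e1 : (1 / 2 : ℝ) ^ (k + 1 + 1) = t / 2 := by rw [ht, pow_succ (1 / 2 : ℝ) (k + 1)]; ring
  rw [e1]
  set x : ℝ := θ0 * (1 / 2 + t) * ((δ / 3 * (2 / 3) ^ k : ℝ≥0) : ℝ) * (2 ^ k * M0 : ℕ) / 4 with hx
  have hx1 : c * M0 * (4 / 3) ^ k ≤ x := by
    have e2 : x = θ0 * (1 / 2 + t) * (δ / 3) * M0 / 4 * (4 / 3) ^ k := by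
      have e3 : (4 / 3 : ℝ) ^ k = (2 / 3) ^ k * 2 ^ k := by rw [← mul_pow]; norm_num
      rw [hx, e3]
      push_cast
      ring
    rw [e2]
    apply mul_le_mul_of_nonneg_right _ (by positivity)
    rw [hc]
    have : 0 ≤ θ0 * t * (δ / 3) * M0 / 4 := by positivity
    nlinarith
  have hx2 : (k : ℝ) + 2 ≤ x := by
    have h3 : 1 + (k : ℝ) * (1 / 3) ≤ (4 / 3) ^ k := by
      have := one_add_mul_le_pow (a := (1 / 3 : ℝ)) (by norm_num) k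
      have e4 : (1 + 1 / 3 : ℝ) = 4 / 3 := by norm_num
      rw [e4] at this
      exact this
    have hk0 : (0 : ℝ) ≤ k := by positivity
    have h4 : 3 * (1 + (k : ℝ) * (1 / 3)) ≤ c * M0 * (4 / 3) ^ k :=
      mul_le_mul hcM h3 (by positivity) (by positivity)
    linarith
  have hexp : Real.exp (-x) ≤ t / 2 := by
    have h5 : Real.exp (-1) ≤ 1 / 2 := by
      rw [Real.exp_neg]
      have := Real.add_one_le_exp (1 : ℝ)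
      rw [inv_eq_one_div]
      exact one_div_le_one_div_of_le (by norm_num) (by linarith)
    calc Real.exp (-x) ≤ Real.exp (-((k : ℝ) + 2)) := Real.exp_le_exp.2 (by linarith)
      _ = (Real.exp (-1)) ^ (k + 2) := by
          rw [← Real.exp_nat_mul]; congr 1; push_cast; ring
      _ ≤ (1 / 2) ^ (k + 2) := pow_le_pow_left₀ (Real.exp_nonneg _) h5 _
      _ = t / 2 := by rw [← e1]
  have h6 : 0 ≤ Real.exp (-x) := Real.exp_nonneg _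
  have h7 : (1 / 2 + t) * Real.exp (-x) ≤ 1 * (t / 2) :=
    mul_le_mul (by linarith) hexp h6 zero_le_one
  have h8 : θ0 * ((1 / 2 + t) * Real.exp (-x)) ≤ θ0 * (t / 2) := by
    apply mul_le_mul_of_nonneg_left _ h0.le
    linarith
  nlinarith [h8]

end Pool.Agent.X136.PT
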