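import Pool.Agent.X136.PT.Defs

open MeasureTheory ProbabilityTheory Set
open scoped ENNReal NNReal

namespace Pool.Agent.X136.PT

theorem mU {α ι : Type*} [Countable ι] (m : MeasurableSpace α) {f : ι → Set α}
    (h : ∀ i, MeasurableSet[m] (f i)) : MeasurableSet[m] (⋃ i, f i) := by
  exact MeasurableSet.iUnion h

theorem mUp {α : Type*} {p : Prop} (m : MeasurableSpace α) {f : p → Set α}
    (h : ∀ i, MeasurableSet[m] (f i)) : MeasurableSet[m] (⋃ i, f i) := by
  exact MeasurableSet.iUnion h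

theorem mI {α : Type*} (m : MeasurableSpace α) {A B : Set α}
    (hA : MeasurableSet[m] A) (hB : MeasurableSet[m] B) : MeasurableSet[m] (A ∩ B) := by
  exact hA.inter hB

theorem mUn {α : Type*} (m : MeasurableSpace α) {A B : Set α}
    (hA : MeasurableSet[m] A) (hB : MeasurableSet[m] B) : MeasurableSet[m] (A ∪ B) := by
  exact hA.union hB

theorem mBI {α ι : Type*} (m : MeasurableSpace α) {s : Set ι} (hs : s.Countable)
    {f : ι → Set α} (h : ∀ i ∈ s, MeasurableSet[m] (f i)) :
    MeasurableSet[m] (⋂ i ∈ s, f i) := by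
  exact MeasurableSet.biInter hs h

theorem mBU {α ι : Type*} (m : MeasurableSpace α) {s : Set ι} (hs : s.Countable)
    {f : ι → Set α} (h : ∀ i ∈ s, MeasurableSet[m] (f i)) :
    MeasurableSet[m] (⋃ i ∈ s, f i) := by
  exact MeasurableSet.biUnion hs h

theorem mC {α : Type*} (m : MeasurableSpace α) {A : Set α}
    (hA : MeasurableSet[m] A) : MeasurableSet[m] Aᶜ := by
  exact hA.compl

section gen

variable {E : Type*}

instance instProbP (rho : E → ℝ≥0) : IsProbabilityMeasure (P rho) := by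
  unfold P; infer_instance

/-- sigma-algebra generated by the coordinates in `T`. -/
@[instance_reducible] def sg (T : Set E) : MeasurableSpace (E → ℕ) :=
  ⨆ e ∈ T, MeasurableSpace.comap (fun om : E → ℕ => om e) inferInstance

theorem sg_le (T : Set E) : sg T ≤ (inferInstance : MeasurableSpace (E → ℕ)) := by
  refine iSup₂_le (fun e _ => ?_)
  exact (measurable_pi_apply e).comap_le

theorem sg_mono {T T' : Set E} (h : T ⊆ T') : sg T ≤ sg T' := by
  refine iSup₂_le (fun e he => ?_)
  exact le_iSup₂ (f := fun e (_ : e ∈ T') =>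
    MeasurableSpace.comap (fun om : E → ℕ => om e) inferInstance) e (h he)

theorem meas_zero {T : Set E} {e : E} (he : e ∈ T) :
    MeasurableSet[sg T] {om : E → ℕ | om e = 0} := by
  have h1 : MeasurableSpace.comap (fun om : E → ℕ => om e) inferInstance ≤ sg T :=
    le_iSup₂ (f := fun e (_ : e ∈ T) =>
      MeasurableSpace.comap (fun om : E → ℕ => om e) inferInstance) e he
  refine h1 _ ?_
  exact ⟨{0}, measurableSet_singleton 0, rfl⟩

theorem meas_open {T : Set E} {e : E} (he : e ∈ T) :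
    MeasurableSet[sg T] {om : E → ℕ | om e ≠ 0} := by
  have := (meas_zero he).compl
  exact this

theorem indepP (rho : E → ℝ≥0) {S T : Set E} (hST : Disjoint S T) {A B : Set (E → ℕ)}
    (hA : MeasurableSet[sg S] A) (hB : MeasurableSet[sg T] B) :
    P rho (A ∩ B) = P rho A * P rho B := by
  have h1 : iIndepFun (fun (e : E) (om : E → ℕ) => om e) (P rho) := by
    have := iIndepFun_infinitePi (P := fun e => poissonMeasure (rho e))
      (X := fun (_ : E) (x : ℕ) => x) (fun i => measurable_id)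
    simpa [P] using this
  have h2 : Indep (sg S) (sg T) (P rho) := by
    refine indep_iSup_of_disjoint (fun e => (measurable_pi_apply e).comap_le) ?_ hST
    exact h1
  exact (Indep_iff _ _ _).1 h2 A B hA hB

theorem indepR (rho : E → ℝ≥0) {S T : Set E} (hST : Disjoint S T) {A B : Set (E → ℕ)}
    (hA : MeasurableSet[sg S] A) (hB : MeasurableSet[sg T] B) :
    (P rho).real (A ∩ B) = (P rho).real A * (P rho).real B := by
  unfold Measure.real
  rw [indepP rho hST hA hB, ENNReal.toReal_mul]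

theorem prob_zero (rho : E → ℝ≥0) (e : E) :
    (P rho).real {om : E → ℕ | om e = 0} = Real.exp (-(rho e : ℝ)) := by
  have h1 : {om : E → ℕ | om e = 0} = (fun om : E → ℕ => om e) ⁻¹' {0} := rfl
  have h2 : (P rho).map (fun om : E → ℕ => om e) = poissonMeasure (rho e) := by
    unfold P
    exact Measure.infinitePi_map_eval (μ := fun e => poissonMeasure (rho e)) e
  have h3 : P rho {om : E → ℕ | om e = 0} = poissonMeasure (rho e) {0} := by
    rw [← h2, Measure.map_apply (measurable_pi_apply e) (measurableSet_singleton 0), h1]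
  unfold Measure.real
  rw [h3]
  have := poissonMeasure_singleton (rho e) 0
  rw [this]
  simp [Real.exp_nonneg]

theorem prob_open (rho : E → ℝ≥0) (e : E) :
    (P rho).real {om : E → ℕ | om e ≠ 0} = 1 - Real.exp (-(rho e : ℝ)) := by
  have h1 : {om : E → ℕ | om e ≠ 0} = {om : E → ℕ | om e = 0}ᶜ := rfl
  rw [h1, probReal_compl_eq_one_sub (sg_le {e} _ (meas_zero rfl)), prob_zero]

end gen

variable {Γ : Type*} [Countable Γ]

/-- connection inside `B`. -/
def Conn (om : Sym2 Γ → ℕ) (B : Set Γ) (x y : Γ) : Prop :=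
  Relation.ReflTransGen (fun u v => u ∈ B ∧ v ∈ B ∧ om s(u, v) ≠ 0) x y

/-- edges inside `B` -/
def inner (B : Set Γ) : Set (Sym2 Γ) := {e | ∀ v ∈ e, v ∈ B}

/-- there is a path of `n` steps from `x` to `y` in `B` -/
def pathN (om : Sym2 Γ → ℕ) (B : Set Γ) : ℕ → Γ → Γ → Prop
  | 0, x, y => x = y
  | n + 1, x, y => ∃ z, (x ∈ B ∧ z ∈ B ∧ om s(x, z) ≠ 0) ∧ pathN om B n z y

omit [Countable Γ] in
theorem conn_iff (om : Sym2 Γ → ℕ) (B : Set Γ) (x y : Γ) :
    Conn om B x y ↔ ∃ n, pathN om B n x y := by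
  constructor
  · intro h
    induction h using Relation.ReflTransGen.head_induction_on with
    | refl => exact ⟨0, rfl⟩
    | head h1 _ ih =>
      obtain ⟨n, hn⟩ := ih
      exact ⟨n + 1, _, h1, hn⟩
  · rintro ⟨n, hn⟩
    induction n generalizing x with
    | zero => cases hn; exact Relation.ReflTransGen.refl
    | succ n ih =>
      obtain ⟨z, h1, h2⟩ := hn
      exact Relation.ReflTransGen.head h1 (ih z h2)

theorem meas_path (B : Set Γ) (n : ℕ) (x y : Γ) :
    MeasurableSet[sg (inner B)] {om : Sym2 Γ → ℕ | pathN om B n x y} := by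
  induction n generalizing x with
  | zero =>
    by_cases h : x = y
    · have : {om : Sym2 Γ → ℕ | pathN om B 0 x y} = univ := by ext om; simp [pathN, h]
      rw [this]; exact @MeasurableSet.univ _ (sg (inner B))
    · have : {om : Sym2 Γ → ℕ | pathN om B 0 x y} = ∅ := by ext om; simp [pathN, h]
      rw [this]; exact @MeasurableSet.empty _ (sg (inner B))
  | succ n ih =>
    have : {om : Sym2 Γ → ℕ | pathN om B (n + 1) x y} =
        ⋃ z, ({om : Sym2 Γ → ℕ | x ∈ B ∧ z ∈ B ∧ om s(x, z) ≠ 0} ∩ {om | pathN om B n z y}) := by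
      ext om; simp only [pathN, mem_ofPred_eq, mem_iUnion, mem_inter_iff]
    rw [this]
    refine mU _ (fun z => mI _ ?_ (ih z))
    by_cases h : x ∈ B ∧ z ∈ B
    · have h2 : {om : Sym2 Γ → ℕ | x ∈ B ∧ z ∈ B ∧ om s(x, z) ≠ 0} = {om | om s(x, z) ≠ 0} := by
        ext om; simp [h.1, h.2]
      rw [h2]
      refine meas_open ?_
      intro v hv
      rcases Sym2.mem_iff.1 hv with rfl | rfl
      · exact h.1
      · exact h.2
    · have h2 : {om : Sym2 Γ → ℕ | x ∈ B ∧ z ∈ B ∧ om s(x, z) ≠ 0} = ∅ := by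
        ext om
        simp only [mem_ofPred_eq, mem_empty_iff_false, iff_false]
        rintro ⟨h3, h4, _⟩
        exact h ⟨h3, h4⟩
      rw [h2]; exact @MeasurableSet.empty _ (sg (inner B))

theorem meas_conn (B : Set Γ) (x y : Γ) :
    MeasurableSet[sg (inner B)] {om : Sym2 Γ → ℕ | Conn om B x y} := by
  have : {om : Sym2 Γ → ℕ | Conn om B x y} = ⋃ n, {om | pathN om B n x y} := by
    ext om; simp only [mem_ofPred_eq, mem_iUnion]; exact conn_iff om B x y
  rw [this]
  exact mU _ (fun n => meas_path B n x y)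

/-- at least `j` vertices are reached from `L` inside `B` -/
def Big (om : Sym2 Γ → ℕ) (B L : Set Γ) (j : ℕ) : Prop :=
  ∃ F : Finset Γ, j ≤ F.card ∧ ∀ h ∈ F, ∃ l ∈ L, Conn om B l h

theorem meas_big (B : Set Γ) (L : (Sym2 Γ → ℕ) → Set Γ) (j : ℕ)
    (m : MeasurableSpace (Sym2 Γ → ℕ)) (hm : sg (inner B) ≤ m)
    (hL : ∀ l, MeasurableSet[m] {om | l ∈ L om}) :
    MeasurableSet[m] {om : Sym2 Γ → ℕ | Big om B (L om) j} := by
  have : {om : Sym2 Γ → ℕ | Big om B (L om) j} =
      ⋃ F : Finset Γ, ⋃ (_ : j ≤ F.card), ⋂ h ∈ F, ⋃ l : Γ,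
        ({om | l ∈ L om} ∩ {om | Conn om B l h}) := by
    ext om
    simp only [Big, mem_ofPred_eq, mem_iUnion, mem_iInter, mem_inter_iff]
    constructor
    · rintro ⟨F, h1, h2⟩
      exact ⟨F, h1, fun h hh => h2 h hh⟩
    · rintro ⟨F, h1, h2⟩
      exact ⟨F, h1, fun h hh => h2 h hh⟩
  rw [this]
  refine mU _ (fun F => mUp _ (fun _ => ?_))
  refine mBI _ F.countable_toSet (fun h _ => ?_)
  exact mU _ (fun l => mI _ (hL l) (hm _ (meas_conn B l h)))

theorem meas_big_const (B L : Set Γ) (j : ℕ) :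
    MeasurableSet[sg (inner B)] {om : Sym2 Γ → ℕ | Big om B L j} := by
  refine meas_big B (fun _ => L) j _ le_rfl (fun l => ?_)
  by_cases h : l ∈ L
  · have : {om : Sym2 Γ → ℕ | l ∈ L} = univ := by ext; simp [h]
    rw [this]; exact @MeasurableSet.univ _ (sg (inner B))
  · have : {om : Sym2 Γ → ℕ | l ∈ L} = ∅ := by ext; simp [h]
    rw [this]; exact @MeasurableSet.empty _ (sg (inner B))

omit [Countable Γ] in
theorem Conn.mono {om : Sym2 Γ → ℕ} {B B' : Set Γ} (h : B ⊆ B') {x y : Γ}
    (hc : Conn om B x y) : Conn om B' x y := by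
  induction hc with
  | refl => exact Relation.ReflTransGen.refl
  | tail _ h1 ih => exact Relation.ReflTransGen.tail ih ⟨h h1.1, h h1.2.1, h1.2.2⟩

omit [Countable Γ] in
theorem Conn.mem {om : Sym2 Γ → ℕ} {B : Set Γ} {x y : Γ} (hc : Conn om B x y) (hx : x ∈ B) :
    y ∈ B := by
  induction hc with
  | refl => exact hx
  | tail _ h2 _ => exact h2.2.1

omit [Countable Γ] in
theorem inner_mono {B B' : Set Γ} (h : B ⊆ B') : inner B ⊆ inner B' :=
  fun _ he v hv => h (he v hv)

omit [Countable Γ] in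
theorem inner_disj {B B' : Set Γ} (h : Disjoint B B') : Disjoint (inner B) (inner B') := by
  rw [Set.disjoint_left]
  intro e he he'
  induction e using Sym2.ind with
  | _ x y =>
    have h1 : x ∈ B := he x (Sym2.mem_mk_left x y)
    have h2 : x ∈ B' := he' x (Sym2.mem_mk_left x y)
    exact Set.disjoint_left.1 h h1 h2

end Pool.Agent.X136.PT
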