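import Pool.Agent.X136.PT.Base2

open MeasureTheory ProbabilityTheory Set
open scoped ENNReal NNReal Classical Pointwise

namespace Pool.Agent.X136.PT

variable {Γ : Type*} [Countable Γ] [Group Γ]

omit [Countable Γ] in
/-- a set of group elements whose two-sided `B`-neighbourhoods are far from each other -/
theorem exists_spread [Infinite Γ] (B : Finset Γ) (n : ℕ) : ∃ A : Finset Γ, A.card = n ∧
    (∀ a ∈ A, ∀ b ∈ B, ∀ c ∈ B, ∀ d ∈ B, b * a * c ≠ d) ∧
    (∀ a ∈ A, ∀ a' ∈ A, a ≠ a' → ∀ b ∈ B, ∀ c ∈ B, ∀ b' ∈ B, ∀ c' ∈ B,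
      b * a * c ≠ b' * a' * c') := by
  induction n with
  | zero => exact ⟨∅, rfl, by simp, by simp⟩
  | succ n ih =>
    obtain ⟨A, hA, h1, h2⟩ := ih
    set W : Finset Γ := B ∪ B * A * B with hW
    obtain ⟨a, ha⟩ := Infinite.exists_notMem_finset (B⁻¹ * W * B⁻¹ ∪ A)
    rw [Finset.mem_union, not_or] at ha
    have key : ∀ b ∈ B, ∀ c ∈ B, b * a * c ∉ W := by
      intro b hb c hc hw
      apply ha.1
      have : a = b⁻¹ * (b * a * c) * c⁻¹ := by group
      rw [this]
      exact Finset.mul_mem_mul (Finset.mul_mem_mul (Finset.inv_mem_inv hb) hw)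
        (Finset.inv_mem_inv hc)
    have hmem : ∀ a' ∈ A, ∀ b ∈ B, ∀ c ∈ B, b * a' * c ∈ W := by
      intro a' ha' b hb c hc
      rw [hW]
      exact Finset.mem_union_right _ (Finset.mul_mem_mul (Finset.mul_mem_mul hb ha') hc)
    refine ⟨insert a A, by rw [Finset.card_insert_of_notMem ha.2, hA], ?_, ?_⟩
    · intro x hx b hb c hc d hd h
      rcases Finset.mem_insert.1 hx with rfl | hx
      · apply key b hb c hc
        rw [h, hW]; exact Finset.mem_union_left _ hd
      · exact h1 x hx b hb c hc d hd h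
    · intro x hx x' hx' hne b hb c hc b' hb' c' hc' h
      rcases Finset.mem_insert.1 hx with hxa | hxA
      · rcases Finset.mem_insert.1 hx' with hxa' | hxA'
        · exact hne (hxa.trans hxa'.symm)
        · subst hxa
          exact key b hb c hc (h ▸ hmem x' hxA' b' hb' c' hc')
      · rcases Finset.mem_insert.1 hx' with hxa' | hxA'
        · subst hxa'
          exact key b' hb' c' hc' (h ▸ hmem x hxA b hb c hc)
        · exact h2 x hxA x' hxA' hne b hb c hc b' hb' c' hc' h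

/-- left translate of `B` by `g` -/
def tr (g : Γ) (B : Finset Γ) : Set Γ := (fun b => g * b) '' (↑B : Set Γ)

omit [Countable Γ] in
theorem mem_tr {g x : Γ} {B : Finset Γ} : x ∈ tr g B ↔ ∃ b ∈ B, g * b = x := by
  simp only [tr, mem_image, Finset.mem_coe]

/-- some vertex `c` of `S` has an open edge to `c a`, whose cluster is large -/
def K (B : Finset Γ) (M : ℕ) (S : Finset Γ) (a : Γ) : Set (Sym2 Γ → ℕ) :=
  {om | ∃ c ∈ S, om s(c, c * a) ≠ 0 ∧ Big om (tr (c * a) B) {c * a} M}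

/-- the edges on which `K` depends -/
def TK (B : Finset Γ) (S : Finset Γ) (a : Γ) : Set (Sym2 Γ) :=
  {e | ∃ c ∈ S, e = s(c, c * a) ∨ e ∈ inner (tr (c * a) B)}

theorem K_meas (B : Finset Γ) (M : ℕ) (S : Finset Γ) (a : Γ) :
    MeasurableSet[sg (TK B S a)] (K B M S a) := by
  have : K B M S a = ⋃ c ∈ (↑S : Set Γ), ({om : Sym2 Γ → ℕ | om s(c, c * a) ≠ 0} ∩
      {om | Big om (tr (c * a) B) {c * a} M}) := by
    ext om
    simp only [K, mem_ofPred_eq, mem_iUnion, mem_inter_iff, Finset.mem_coe, exists_prop]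
  rw [this]
  refine mBU _ S.countable_toSet (fun c hc => mI _ ?_ ?_)
  · exact meas_open ⟨c, hc, Or.inl rfl⟩
  · refine sg_mono ?_ _ (meas_big_const (tr (c * a) B) {c * a} M)
    intro e he
    exact ⟨c, hc, Or.inr he⟩

theorem K_prob (rho : Sym2 Γ → ℝ≥0) (B : Finset Γ) (hB : 1 ∈ B) (M : ℕ) (θ y : ℝ) (hθ : 0 ≤ θ)
    (g a : Γ)
    (hA1 : ∀ b ∈ B, ∀ c ∈ B, ∀ d ∈ B, b * a * c ≠ d)
    (hy : ∀ c, y ≤ (rho s(c, c * a) : ℝ))
    (hP : ∀ h : Γ, θ ≤ (P rho).real {om : Sym2 Γ → ℕ | Big om (tr h B) {h} M})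
    (S : Finset Γ) : (↑S ⊆ tr g B) →
    θ * (1 - Real.exp (-(y * S.card))) ≤ (P rho).real (K B M S a) := by
  induction S using Finset.induction_on with
  | empty =>
    intro _
    simp
  | insert c S' hc ih =>
    intro hS
    have hS' : (↑S' : Set Γ) ⊆ tr g B := fun x hx => hS (Finset.mem_insert_of_mem hx)
    have hcg : c ∈ tr g B := hS (Finset.mem_insert_self c S')
    have hsep : ∀ c' ∈ tr g B, ∀ d ∈ tr g B, d ∉ tr (c' * a) B := by
      intro c' hc' d hd hd2
      obtain ⟨b, hb, rfl⟩ := mem_tr.1 hc'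
      obtain ⟨b1, hb1, rfl⟩ := mem_tr.1 hd
      obtain ⟨b2, hb2, h⟩ := mem_tr.1 hd2
      apply hA1 b hb b2 hb2 b1 hb1
      have : g * (b * a * b2) = g * b1 := by rw [← h]; group
      exact mul_left_cancel this
    have hself : ∀ c', c' * a ∈ tr (c' * a) B := fun c' => mem_tr.2 ⟨1, hB, by simp⟩
    set T : Set (Sym2 Γ) := inner (tr (c * a) B) ∪ TK B S' a with hT
    have heT : s(c, c * a) ∉ T := by
      rintro (h | ⟨c', hc', h | h⟩)
      · exact hsep c hcg c hcg (h c (Sym2.mem_mk_left _ _))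
      · rcases Sym2.eq_iff.1 h with ⟨h1, _⟩ | ⟨h1, _⟩
        · exact hc (h1 ▸ hc')
        · exact hsep c' (hS' hc') c hcg (h1 ▸ hself c')
      · exact hsep c' (hS' hc') c hcg (h c (Sym2.mem_mk_left _ _))
    have hsp := split_ge rho s(c, c * a) T heT (G := K B M (insert c S') a)
      (G1 := {om : Sym2 Γ → ℕ | Big om (tr (c * a) B) {c * a} M}) (G0 := K B M S' a)
      (sg_mono (by rw [hT]; exact subset_union_left) _ (meas_big_const _ _ _))
      (sg_mono (by rw [hT]; exact subset_union_right) _ (K_meas B M S' a))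
      (fun om h1 h2 => ⟨c, Finset.mem_insert_self c S', h1, h2⟩)
      (fun om _ h2 => by
        obtain ⟨c', hc', h3⟩ := h2
        exact ⟨c', Finset.mem_insert_of_mem hc', h3⟩)
    refine le_trans ?_ hsp
    have h1 := hP (c * a)
    have h2 := ih hS'
    have h3 := hy c
    set t := Real.exp (-(rho s(c, c * a) : ℝ)) with ht
    have ht0 : 0 ≤ t := Real.exp_nonneg _
    have ht1 : t ≤ 1 := by rw [ht]; exact Real.exp_le_one_iff.2 (by simp)
    have hty : t ≤ Real.exp (-y) := by rw [ht]; exact Real.exp_le_exp.2 (by linarith)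
    rw [Finset.card_insert_of_notMem hc]
    have e1 : Real.exp (-(y * ((S'.card + 1 : ℕ) : ℝ))) =
        Real.exp (-y) * Real.exp (-(y * S'.card)) := by
      rw [← Real.exp_add]; congr 1; push_cast; ring
    rw [e1]
    have e2 : (1 - t) * θ + t * (θ * (1 - Real.exp (-(y * S'.card)))) ≤
        (1 - t) * (P rho).real {om : Sym2 Γ → ℕ | Big om (tr (c * a) B) {c * a} M} +
        t * (P rho).real (K B M S' a) :=
      add_le_add (mul_le_mul_of_nonneg_left h1 (by linarith)) (mul_le_mul_of_nonneg_left h2 ht0)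
    refine le_trans ?_ e2
    have e3 : 0 ≤ θ * ((Real.exp (-y) - t) * Real.exp (-(y * S'.card))) :=
      mul_nonneg hθ (mul_nonneg (by linarith) (Real.exp_nonneg _))
    nlinarith [e3]

theorem H_prob (rho : Sym2 Γ → ℝ≥0) (B : Finset Γ) (M : ℕ) (κ : ℝ) (hκ1 : κ ≤ 1)
    (S A : Finset Γ)
    (hdis : ∀ a ∈ A, ∀ a' ∈ A, a ≠ a' → Disjoint (TK B S a) (TK B S a'))
    (hK : ∀ a ∈ A, κ ≤ (P rho).real (K B M S a)) : ∀ A' ⊆ A,
    (P rho).real (⋂ a ∈ (↑A' : Set Γ), (K B M S a)ᶜ) ≤ (1 - κ) ^ A'.card := by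
  intro A'
  induction A' using Finset.induction_on with
  | empty => intro _; simp
  | insert a A' ha ih =>
    intro hA'
    have hA'' : A' ⊆ A := (Finset.subset_insert a A').trans hA'
    have haA : a ∈ A := hA' (Finset.mem_insert_self a A')
    have h1 : (⋂ x ∈ (↑(insert a A') : Set Γ), (K B M S x)ᶜ) =
        (K B M S a)ᶜ ∩ ⋂ x ∈ (↑A' : Set Γ), (K B M S x)ᶜ := by
      rw [Finset.coe_insert, biInter_insert]
    have hd : Disjoint (TK B S a) (⋃ x ∈ (↑A' : Set Γ), TK B S x) := by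
      rw [Set.disjoint_iUnion₂_right]
      intro x hx
      refine hdis a haA x (hA'' hx) ?_
      rintro rfl
      exact ha hx
    rw [h1, indepR rho hd (mC _ (K_meas B M S a)) (mBI _ A'.countable_toSet (fun x hx =>
      mC _ (sg_mono (subset_biUnion_of_mem hx) _ (K_meas B M S x)))),
      Finset.card_insert_of_notMem ha, pow_succ', probReal_compl_eq_one_sub
        (sg_le _ _ (K_meas B M S a))]
    have h2 := hK a haA
    exact mul_le_mul (by linarith) (ih hA'') measureReal_nonneg (by linarith)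

end Pool.Agent.X136.PT
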