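import Pool.Agent.X136.PT.Step

open MeasureTheory ProbabilityTheory Set
open scoped ENNReal NNReal Classical Pointwise

namespace Pool.Agent.X136.PT

variable {Γ : Type*} [Countable Γ] [Group Γ]

/-- the cluster of `g` in `R` is exactly `S` -/
def Ev (R : Set Γ) (g : Γ) (S : Finset Γ) : Set (Sym2 Γ → ℕ) :=
  {om | ∀ h, Conn om R g h ↔ h ∈ S}

omit [Group Γ] in
theorem Ev_meas (R : Set Γ) (g : Γ) (S : Finset Γ) :
    MeasurableSet[sg (inner R)] (Ev R g S) := by
  have : Ev R g S = ⋂ h ∈ (univ : Set Γ), {om | Conn om R g h ↔ h ∈ S} := by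
    ext om; simp [Ev]
  rw [this]
  refine mBI _ (Set.to_countable _) (fun h _ => ?_)
  by_cases hh : h ∈ S
  · have h2 : {om : Sym2 Γ → ℕ | Conn om R g h ↔ h ∈ S} = {om | Conn om R g h} := by
      ext om; simp [hh]
    rw [h2]; exact meas_conn R g h
  · have h2 : {om : Sym2 Γ → ℕ | Conn om R g h ↔ h ∈ S} = {om | Conn om R g h}ᶜ := by
      ext om; simp [hh]
    rw [h2]; exact mC _ (meas_conn R g h)

theorem step [Infinite Γ] (m : Γ → ℝ≥0) (B : Finset Γ) (M : ℕ) (θ : ℝ) (hθ0 : 0 ≤ θ)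
    (hθ1 : θ ≤ 1) (hm : ∀ a, m a = m a⁻¹) (hG : Good m B M θ) (p : ℝ≥0) :
    ∃ (m' : Γ → ℝ≥0) (B' : Finset Γ), (∀ a, m' a = m' a⁻¹) ∧ (∀ a, m a ≤ m' a) ∧
      ∑' a, (m' a : ℝ≥0∞) ≤ ∑' a, (m a : ℝ≥0∞) + p ∧
      Good m' B' (2 * M) (θ * (1 - Real.exp (-(θ * p * M / 4)))) := by
  obtain ⟨n, hn⟩ := exists_nat_ge ((p : ℝ) * M + 1)
  obtain ⟨A, hAc, hA1, hA2⟩ := exists_spread B n
  have hp0 : (0 : ℝ) ≤ p := p.2
  have hM0 : (0 : ℝ) ≤ M := by positivity
  have hpM : (0 : ℝ) ≤ (p : ℝ) * M := by positivity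
  have hn0 : (0 : ℝ) < n := by linarith
  have hn0' : (n : ℝ≥0) ≠ 0 := by
    intro h
    have : (n : ℝ) = 0 := by exact_mod_cast h
    linarith
  set D : Finset Γ := A ∪ A⁻¹ with hD
  have hDinv : ∀ a, a ∈ D ↔ a⁻¹ ∈ D := by
    intro a
    rw [hD]
    simp only [Finset.mem_union, Finset.mem_inv']
    rw [inv_inv]
    tauto
  have hDc : D.card ≤ 2 * n := by
    have h1 := Finset.card_union_le A A⁻¹
    rw [Finset.card_inv, hAc] at h1
    rw [hD]; omega
  set f : Γ → ℝ≥0 := fun a => if a ∈ D then p / (2 * n) else 0 with hf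
  have hfinv : ∀ a, f a = f a⁻¹ := by
    intro a
    by_cases h : a ∈ D
    · simp only [hf, h, (hDinv a).1 h, if_true]
    · have h' : a⁻¹ ∉ D := fun h2 => h ((hDinv a).2 h2)
      simp only [hf, h, h', if_false]
  set B' : Finset Γ := B ∪ B * A * B with hB'
  refine ⟨fun a => m a + f a, B', fun a => by
    show m a + f a = m a⁻¹ + f a⁻¹
    rw [← hm a, ← hfinv a], fun a => by simp, ?_, ?_, ?_⟩
  · have h1 : ∀ a, ((m a + f a : ℝ≥0) : ℝ≥0∞) = (m a : ℝ≥0∞) + (f a : ℝ≥0∞) := fun a => by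
      rw [ENNReal.coe_add]
    simp only [h1]
    rw [ENNReal.tsum_add]
    refine add_le_add le_rfl ?_
    rw [tsum_eq_sum (s := D) (by intro b hb; simp [hf, hb])]
    rw [Finset.sum_congr rfl (g := fun _ => ((p / (2 * n) : ℝ≥0) : ℝ≥0∞)) (by
      intro b hb; simp [hf, hb])]
    rw [Finset.sum_const, nsmul_eq_mul]
    rw [← ENNReal.coe_natCast, ← ENNReal.coe_mul]
    refine ENNReal.coe_le_coe.2 ?_
    have h2 : ((D.card : ℕ) : ℝ≥0) ≤ 2 * n := by exact_mod_cast hDc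
    calc (D.card : ℝ≥0) * (p / (2 * n)) ≤ (2 * n) * (p / (2 * n)) := by gcongr
      _ = p := by field_simp
  · exact Finset.mem_union_left _ hG.1
  intro rho hrho g
  have hBone := hG.1
  have hP : ∀ h : Γ, θ ≤ (P rho).real {om : Sym2 Γ → ℕ | Big om (tr h B) {h} M} := by
    intro h
    exact hG.2 rho (fun g a => le_trans (by simp) (hrho g a)) h
  set y : ℝ := (p : ℝ) / (2 * n) with hy
  have hy0 : 0 ≤ y := by positivity
  have hyr : ∀ a ∈ A, ∀ c, y ≤ (rho s(c, c * a) : ℝ) := by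
    intro a ha c
    have h1 := hrho c a
    have h2 : f a = p / (2 * n) := by
      have : a ∈ D := by rw [hD]; exact Finset.mem_union_left _ ha
      simp [hf, this]
    have h3 : (p / (2 * n) : ℝ≥0) ≤ rho s(c, c * a) := by
      rw [← h2]; exact le_trans (by simp) h1
    have h4 : ((p / (2 * n) : ℝ≥0) : ℝ) ≤ (rho s(c, c * a) : ℝ) := by exact_mod_cast h3
    rw [hy]
    refine le_trans (le_of_eq ?_) h4
    push_cast; rfl
  set z : ℝ := y * M with hz
  have hz0 : 0 ≤ z := by positivity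
  have hz1 : z ≤ 1 / 2 := by
    rw [hz, hy, div_mul_eq_mul_div, div_le_iff₀ (by positivity)]
    linarith
  set κ : ℝ := θ * (1 - Real.exp (-z)) with hκ
  have hez : Real.exp (-z) ≤ 1 - z / 2 := by
    have := exp_bd hz0 (by linarith)
    nlinarith
  have hκ1 : κ ≤ 1 := by
    have : 1 - Real.exp (-z) ≤ 1 := by linarith [Real.exp_nonneg (-z)]
    rw [hκ]
    calc θ * (1 - Real.exp (-z)) ≤ 1 * 1 :=
          mul_le_mul hθ1 this (by linarith) zero_le_one
      _ = 1 := one_mul 1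
  have hκn : θ * p * M / 4 ≤ κ * n := by
    have h1 : θ * (z / 2) ≤ κ := mul_le_mul_of_nonneg_left (by linarith) hθ0
    have h2 : θ * (z / 2) * n ≤ κ * n := mul_le_mul_of_nonneg_right h1 hn0.le
    refine le_trans (le_of_eq ?_) h2
    rw [hz, hy]; field_simp; ring
  set ε : ℝ := Real.exp (-(θ * p * M / 4)) with hε
  have hpow : (1 - κ) ^ n ≤ ε := by
    have h1 : 1 - κ ≤ Real.exp (-κ) := by
      have := Real.add_one_le_exp (-κ); linarith
    calc (1 - κ) ^ n ≤ (Real.exp (-κ)) ^ n := pow_le_pow_left₀ (by linarith) h1 _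
      _ = Real.exp (-(κ * n)) := by rw [← Real.exp_nat_mul]; congr 1; ring
      _ ≤ ε := by rw [hε]; exact Real.exp_le_exp.2 (by linarith)
  -- separation of regions
  have hsep : ∀ a ∈ A, ∀ c ∈ tr g B, ∀ d ∈ tr g B, d ∉ tr (c * a) B := by
    intro a ha c' hc' d hd hd2
    obtain ⟨b, hb, rfl⟩ := mem_tr.1 hc'
    obtain ⟨b1, hb1, rfl⟩ := mem_tr.1 hd
    obtain ⟨b2, hb2, h⟩ := mem_tr.1 hd2
    apply hA1 a ha b hb b2 hb2 b1 hb1
    have : g * (b * a * b2) = g * b1 := by rw [← h]; group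
    exact mul_left_cancel this
  have hsep2 : ∀ a ∈ A, ∀ a' ∈ A, a ≠ a' → ∀ c ∈ tr g B, ∀ c' ∈ tr g B,
      Disjoint (tr (c * a) B) (tr (c' * a') B) := by
    intro a ha a' ha' hne c hc c' hc'
    rw [Set.disjoint_left]
    intro x hx hx'
    obtain ⟨b, hb, rfl⟩ := mem_tr.1 hc
    obtain ⟨b', hb', rfl⟩ := mem_tr.1 hc'
    obtain ⟨b1, hb1, rfl⟩ := mem_tr.1 hx
    obtain ⟨b2, hb2, h⟩ := mem_tr.1 hx'
    apply hA2 a ha a' ha' hne b hb b1 hb1 b' hb' b2 hb2
    have : g * (b * a * b1) = g * (b' * a' * b2) := by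
      calc g * (b * a * b1) = g * b * a * b1 := by group
        _ = g * b' * a' * b2 := h.symm
        _ = _ := by group
    exact mul_left_cancel this
  have hself : ∀ c, c ∈ tr c B := fun c => mem_tr.2 ⟨1, hBone, by simp⟩
  have hTKdis : ∀ S : Finset Γ, (↑S ⊆ tr g B) → ∀ a ∈ A, ∀ a' ∈ A, a ≠ a' →
      Disjoint (TK B S a) (TK B S a') := by
    intro S hS a ha a' ha' hne
    rw [Set.disjoint_left]
    rintro e ⟨c, hc, h1⟩ ⟨c', hc', h2⟩
    have hcg := hS hc
    have hcg' := hS hc'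
    rcases h1 with h1 | h1 <;> rcases h2 with h2 | h2
    · rcases Sym2.eq_iff.1 (h1.symm.trans h2) with ⟨h3, h4⟩ | ⟨h3, h4⟩
      · rw [h3] at h4; exact hne (mul_left_cancel h4)
      · exact hsep a' ha' c' hcg' c hcg (h3 ▸ hself _)
    · rw [h1] at h2
      exact hsep a' ha' c' hcg' c hcg (h2 c (Sym2.mem_mk_left _ _))
    · rw [h2] at h1
      exact hsep a ha c hcg c' hcg' (h1 c' (Sym2.mem_mk_left _ _))
    · exact Set.disjoint_left.1 (inner_disj (hsep2 a ha a' ha' hne c hcg c' hcg')) h1 h2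
  have hTKin : ∀ S : Finset Γ, (↑S ⊆ tr g B) →
      Disjoint (inner (tr g B)) (⋃ a ∈ (↑A : Set Γ), TK B S a) := by
    intro S hS
    rw [Set.disjoint_iUnion₂_right]
    intro a ha
    rw [Set.disjoint_left]
    rintro e he ⟨c, hc, h1 | h1⟩
    · rw [h1] at he
      exact hsep a ha c (hS hc) (c * a) (he (c * a) (Sym2.mem_mk_right _ _)) (hself _)
    · have hd : Disjoint (tr g B) (tr (c * a) B) := by
        rw [Set.disjoint_left]
        intro x hx hx2
        exact hsep a ha c (hS hc) x hx hx2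
      exact Set.disjoint_left.1 (inner_disj hd) he h1
  set HS : Finset Γ → Set (Sym2 Γ → ℕ) := fun S => (⋂ a ∈ (↑A : Set Γ), (K B M S a)ᶜ)ᶜ with hHS
  have hHmeas : ∀ S, MeasurableSet[sg (⋃ a ∈ (↑A : Set Γ), TK B S a)] (HS S) := by
    intro S
    refine mC _ (mBI _ A.countable_toSet (fun x hx =>
      mC _ (sg_mono (subset_biUnion_of_mem hx) _ (K_meas B M S x))))
  set G0 : Finset Γ := B.image (fun b => g * b) with hG0
  have hG0c : (↑G0 : Set Γ) = tr g B := by rw [hG0, Finset.coe_image]; rfl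
  set Fam : Finset (Finset Γ) := (G0.powerset).filter (fun S => M ≤ S.card) with hFam
  have hFamS : ∀ S ∈ Fam, (↑S : Set Γ) ⊆ tr g B := by
    intro S hS
    rw [hFam, Finset.mem_filter, Finset.mem_powerset] at hS
    rw [← hG0c]; exact Finset.coe_subset.2 hS.1
  have hHprob : ∀ S ∈ Fam, 1 - ε ≤ (P rho).real (HS S) := by
    intro S hS
    have hSM : M ≤ S.card := (Finset.mem_filter.1 hS).2
    have hKa : ∀ a ∈ A, κ ≤ (P rho).real (K B M S a) := by
      intro a ha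
      refine le_trans ?_ (K_prob rho B hBone M θ y hθ0 g a (hA1 a ha) (hyr a ha) hP S (hFamS S hS))
      rw [hκ]
      apply mul_le_mul_of_nonneg_left _ hθ0
      have : z ≤ y * S.card := by
        rw [hz]; exact mul_le_mul_of_nonneg_left (by exact_mod_cast hSM) hy0
      have := Real.exp_le_exp.2 (neg_le_neg this)
      linarith
    have h1 := H_prob rho B M κ hκ1 S A (hTKdis S (hFamS S hS)) hKa A subset_rfl
    rw [hAc] at h1
    rw [hHS]
    dsimp only
    rw [probReal_compl_eq_one_sub (sg_le (⋃ a ∈ (↑A : Set Γ), TK B S a) _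
      (mBI _ A.countable_toSet (fun x hx =>
      mC _ (sg_mono (subset_biUnion_of_mem hx) _ (K_meas B M S x)))))]
    linarith
  have hcover : {om : Sym2 Γ → ℕ | Big om (tr g B) {g} M} ⊆ ⋃ S ∈ Fam, Ev (tr g B) g S := by
    rintro om ⟨F, hF1, hF2⟩
    set S : Finset Γ := G0.filter (fun h => Conn om (tr g B) g h) with hS
    have hin : ∀ h, Conn om (tr g B) g h → h ∈ G0 := by
      intro h hc
      have := hc.mem (hself g)
      rw [← hG0c] at this
      exact this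
    have hFS : F ⊆ S := by
      intro h hh
      obtain ⟨l, hl, hc⟩ := hF2 h hh
      rw [mem_singleton_iff] at hl
      subst hl
      rw [hS, Finset.mem_filter]
      exact ⟨hin h hc, hc⟩
    have hSF : S ∈ Fam := by
      rw [hFam, Finset.mem_filter, Finset.mem_powerset]
      exact ⟨Finset.filter_subset _ _, hF1.trans (Finset.card_le_card hFS)⟩
    refine mem_iUnion₂.2 ⟨S, hSF, ?_⟩
    intro h
    rw [hS, Finset.mem_filter]
    exact ⟨fun hc => ⟨hin h hc, hc⟩, fun hc => hc.2⟩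
  have hsum1 : θ ≤ ∑ S ∈ Fam, (P rho).real (Ev (tr g B) g S) :=
    (hP g).trans ((measureReal_mono hcover (measure_ne_top _ _)).trans
      (measureReal_biUnion_finset_le Fam _))
  have hε1 : ε ≤ 1 := by
    rw [hε]; exact Real.exp_le_one_iff.2 (by
      have : 0 ≤ θ * p * M / 4 := by positivity
      linarith)
  have hprod : ∀ S ∈ Fam, (P rho).real (Ev (tr g B) g S) * (1 - ε) ≤
      (P rho).real (Ev (tr g B) g S ∩ HS S) := by
    intro S hS
    rw [indepR rho (hTKin S (hFamS S hS)) (Ev_meas _ g S) (hHmeas S)]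
    exact mul_le_mul_of_nonneg_left (hHprob S hS) measureReal_nonneg
  have hdisj : ∀ S ∈ Fam, ∀ S' ∈ Fam, S ≠ S' →
      Disjoint (Ev (tr g B) g S ∩ HS S) (Ev (tr g B) g S' ∩ HS S') := by
    intro S _ S' _ hne
    rw [Set.disjoint_left]
    rintro om ⟨h1, _⟩ ⟨h2, _⟩
    apply hne
    ext h
    rw [← h1 h, h2 h]
  have hmeasE : ∀ S ∈ Fam, MeasurableSet (Ev (tr g B) g S ∩ HS S) := fun S _ =>
    (sg_le _ _ (Ev_meas _ g S)).inter (sg_le _ _ (hHmeas S))
  have hsum2 : ∑ S ∈ Fam, (P rho).real (Ev (tr g B) g S ∩ HS S) =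
      (P rho).real (⋃ S ∈ Fam, (Ev (tr g B) g S ∩ HS S)) := by
    rw [measureReal_biUnion_finset]
    · intro S hS S' hS' hne
      exact hdisj S hS S' hS' hne
    · exact hmeasE
  have hgB' : tr g B ⊆ tr g B' := by
    intro x hx
    obtain ⟨b, hb, rfl⟩ := mem_tr.1 hx
    exact mem_tr.2 ⟨b, Finset.mem_union_left _ hb, rfl⟩
  have hcaB' : ∀ a ∈ A, ∀ c ∈ tr g B, tr (c * a) B ⊆ tr g B' := by
    intro a ha c hc x hx
    obtain ⟨b, hb, rfl⟩ := mem_tr.1 hc
    obtain ⟨b1, hb1, rfl⟩ := mem_tr.1 hx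
    refine mem_tr.2 ⟨b * a * b1, Finset.mem_union_right _
      (Finset.mul_mem_mul (Finset.mul_mem_mul hb ha) hb1), by group⟩
  have hsubset : (⋃ S ∈ Fam, (Ev (tr g B) g S ∩ HS S)) ⊆
      {om : Sym2 Γ → ℕ | Big om ((fun b => g * b) '' (↑B' : Set Γ)) {g} (2 * M)} := by
    intro om hom
    obtain ⟨S, hS, hE, hH⟩ := mem_iUnion₂.1 hom
    have hSM : M ≤ S.card := (Finset.mem_filter.1 hS).2
    rw [hHS] at hH
    simp only [mem_compl_iff, mem_iInter, not_forall, not_not, Finset.mem_coe] at hH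
    obtain ⟨a, ha, c, hc, hopen, F, hF1, hF2⟩ := hH
    have hcg : c ∈ tr g B := hFamS S hS hc
    have hFin : ∀ h ∈ F, Conn om (tr (c * a) B) (c * a) h := by
      intro h hh
      obtain ⟨l, hl, hcn⟩ := hF2 h hh
      rw [mem_singleton_iff] at hl
      subst hl
      exact hcn
    have hdSF : Disjoint S F := by
      rw [Finset.disjoint_left]
      intro h hh hhF
      exact hsep a ha c hcg h (hFamS S hS hh) ((hFin h hhF).mem (hself _))
    refine ⟨S ∪ F, ?_, ?_⟩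
    · rw [Finset.card_union_of_disjoint hdSF]; omega
    · intro h hh
      refine ⟨g, rfl, ?_⟩
      rcases Finset.mem_union.1 hh with hh | hh
      · exact ((hE h).2 hh).mono hgB'
      · have h1 : Conn om (tr g B') g c := ((hE c).2 hc).mono hgB'
        have h2 : Conn om (tr g B') (c * a) h := (hFin h hh).mono (hcaB' a ha c hcg)
        have h3 : Conn om (tr g B') c (c * a) :=
          Relation.ReflTransGen.single ⟨hgB' hcg, hcaB' a ha c hcg (hself _), hopen⟩
        exact Relation.ReflTransGen.trans h1 (Relation.ReflTransGen.trans h3 h2)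
  calc θ * (1 - ε) ≤ (∑ S ∈ Fam, (P rho).real (Ev (tr g B) g S)) * (1 - ε) :=
        mul_le_mul_of_nonneg_right hsum1 (by linarith)
    _ = ∑ S ∈ Fam, (P rho).real (Ev (tr g B) g S) * (1 - ε) := by rw [Finset.sum_mul]
    _ ≤ ∑ S ∈ Fam, (P rho).real (Ev (tr g B) g S ∩ HS S) := Finset.sum_le_sum hprod
    _ = (P rho).real (⋃ S ∈ Fam, (Ev (tr g B) g S ∩ HS S)) := hsum2
    _ ≤ _ := measureReal_mono hsubset (measure_ne_top _ _)

end Pool.Agent.X136.PT
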